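import Pool.Agent.R290.FL.Orb

/-!
Labels of points with infinite orbit for permutations close to an irrational rotation.
-/

open Set Filter Topology Metric

namespace Pool.Agent.R290.FL

variable {X : Type*} {L : ℝ} [hL0 : Fact (0 < L)]

lemma nrm {s : ℝ} (h0 : 0 ≤ s) (h1 : s ≤ L) : ‖(s : AddCircle L)‖ = min s (L - s) := by
  have hL : (0 : ℝ) < L := hL0.out
  rcases le_total s (L / 2) with h | h
  · rw [(AddCircle.norm_coe_eq_abs_iff _ hL.ne').2 (by rw [abs_of_nonneg h0, abs_of_pos hL]; exact h),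
      abs_of_nonneg h0, min_eq_left (by linarith)]
  · have e : (s : AddCircle L) = ((s - L : ℝ) : AddCircle L) := by
      rw [AddCircle.coe_sub, AddCircle.coe_period, sub_zero]
    have h2 : s - L ≤ 0 := by linarith
    rw [e, (AddCircle.norm_coe_eq_abs_iff _ hL.ne').2 (by
      rw [abs_of_nonpos h2, abs_of_pos hL]; linarith), abs_of_nonpos h2, min_eq_right (by linarith)]
    ring

lemma exists_rep (z : AddCircle L) : ∃ t : ℝ, (t : AddCircle L) = z ∧ |t| ≤ L / 2 ∧ ‖z‖ = |t| := by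
  have hL : (0 : ℝ) < L := hL0.out
  obtain ⟨t, ht, rfl⟩ : ∃ t : ℝ, t ∈ Ico (-(L/2)) (-(L/2) + L) ∧ (t : AddCircle L) = z := by
    have := (AddCircle.equivIco L (-(L/2))).symm_apply_apply z
    exact ⟨(AddCircle.equivIco L (-(L/2)) z : ℝ), (AddCircle.equivIco L (-(L/2)) z).2, this⟩
  have h1 : |t| ≤ L / 2 := by
    rw [abs_le]; constructor <;> [linarith [ht.1]; linarith [ht.2]]
  refine ⟨t, rfl, h1, (AddCircle.norm_coe_eq_abs_iff _ hL.ne').2 (by rw [abs_of_pos hL]; exact h1)⟩

lemma dens {b : AddCircle L} (hb : ∀ n : ℕ, n • b = 0 → n = 0) (y : AddCircle L)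
    {U : Set (AddCircle L)} (hU : IsOpen U) (hne : U.Nonempty) :
    ∃ᶠ n : ℕ in atTop, y + n • b ∈ U := by
  obtain ⟨u, hu⟩ := hne
  have h1 : addOrderOf b = 0 := by
    rw [addOrderOf_eq_zero_iff']
    intro n hn h
    have := hb n h
    omega
  have h2 : u - y ∈ closure (range (· • b : ℤ → AddCircle L)) := (AddCircle.denseRange_zsmul_iff.2 h1) _
  have h3 : MapClusterPt (u - y) atTop (· • b : ℕ → AddCircle L) :=
    ((mapClusterPt_atTop_nsmul_tfae (u - y) b).out 3 0).1 h2
  have h4 : {v : AddCircle L | y + v ∈ U} ∈ 𝓝 (u - y) := by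
    apply (hU.preimage (continuous_const_add y)).mem_nhds
    show y + (u - y) ∈ U
    rw [add_sub_cancel]; exact hu
  exact mapClusterPt_iff_frequently.1 h3 _ h4

lemma geo1 {m z0 : AddCircle L} {ρ : ℝ} (hρ : 0 < ρ) (hL : 6 * ρ < L)
    (h : ∀ z ∈ ball m ρ, dist z z0 ≤ 2 * ρ) : z0 ∈ closedBall m ρ := by
  obtain ⟨t, ht, ht1, ht2⟩ := exists_rep (z0 - m)
  rw [mem_closedBall, dist_eq_norm, ht2]
  by_contra hcon
  push Not at hcon
  obtain ⟨r, hr1, hr2⟩ := exists_between (show max 0 (2 * ρ - |t|) < ρ from max_lt hρ (by linarith))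
  have hr0 := (le_max_left _ _).trans_lt hr1
  have hr3 := (le_max_right _ _).trans_lt hr1
  have hz0 : z0 = m + (t : AddCircle L) := by rw [ht]; abel
  have hnr : ‖(r : AddCircle L)‖ < ρ := by
    rw [nrm hr0.le (by linarith)]
    exact (min_le_left _ _).trans_lt hr2
  have hbig : 2 * ρ < ‖((|t| + r : ℝ) : AddCircle L)‖ := by
    rw [nrm (by positivity) (by linarith), lt_min_iff]
    constructor <;> linarith
  rcases le_total 0 t with h0 | h0
  · have h1 := h (m - (r : AddCircle L)) (by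
      rw [mem_ball, dist_eq_norm, sub_sub_cancel_left, norm_neg]; exact hnr)
    rw [dist_eq_norm] at h1
    rw [abs_of_nonneg h0] at hbig
    have e : m - (r : AddCircle L) - z0 = -((t + r : ℝ) : AddCircle L) := by
      rw [hz0, AddCircle.coe_add]; abel
    rw [e, norm_neg] at h1
    linarith
  · have h1 := h (m + (r : AddCircle L)) (by
      rw [mem_ball, dist_eq_norm, add_sub_cancel_left]; exact hnr)
    rw [dist_eq_norm] at h1
    rw [abs_of_nonpos h0] at hbig
    have e : m + (r : AddCircle L) - z0 = ((-t + r : ℝ) : AddCircle L) := by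
      rw [hz0, AddCircle.coe_add, AddCircle.coe_neg]; abel
    rw [e] at h1
    linarith

lemma geo2 {m δ : AddCircle L} {ρ : ℝ} (hρ : 0 < ρ) (hL : 6 * ρ < L)
    (h : ∀ z ∈ ball m ρ, z + δ ∈ closedBall m ρ) : δ = 0 := by
  obtain ⟨t, ht, ht1, ht2⟩ := exists_rep δ
  by_contra hcon
  have ht0 : 0 < |t| := by rw [← ht2]; exact norm_pos_iff.2 hcon
  obtain ⟨r, hr1, hr2⟩ := exists_between (show max 0 (ρ - |t|) < ρ from max_lt hρ (by linarith))
  have hr0 := (le_max_left _ _).trans_lt hr1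
  have hr3 := (le_max_right _ _).trans_lt hr1
  have hnr : ‖(r : AddCircle L)‖ < ρ := by
    rw [nrm hr0.le (by linarith)]
    exact (min_le_left _ _).trans_lt hr2
  have hbig : ρ < ‖((|t| + r : ℝ) : AddCircle L)‖ := by
    rw [nrm (by positivity) (by linarith), lt_min_iff]
    constructor <;> linarith
  rcases le_total 0 t with h0 | h0
  · have h1 := h (m + (r : AddCircle L)) (by
      rw [mem_ball, dist_eq_norm, add_sub_cancel_left]; exact hnr)
    rw [mem_closedBall, dist_eq_norm] at h1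
    rw [abs_of_nonneg h0] at hbig
    have e : m + (r : AddCircle L) + δ - m = ((t + r : ℝ) : AddCircle L) := by
      rw [← ht, AddCircle.coe_add]; abel
    rw [e] at h1
    linarith
  · have h1 := h (m - (r : AddCircle L)) (by
      rw [mem_ball, dist_eq_norm, sub_sub_cancel_left, norm_neg]; exact hnr)
    rw [mem_closedBall, dist_eq_norm] at h1
    rw [abs_of_nonpos h0] at hbig
    have e : m - (r : AddCircle L) + δ - m = -((-t + r : ℝ) : AddCircle L) := by
      rw [← ht, AddCircle.coe_add, AddCircle.coe_neg]; abel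
    rw [e, norm_neg] at h1
    linarith

lemma inj_seq {A : Type*} [AddCommGroup A] {b : A} (hb : ∀ n : ℕ, n • b = 0 → n = 0) (z : A) :
    Function.Injective fun n : ℕ => z + n • b := by
  intro m n hmn
  have h1 : m • b = n • b := add_left_cancel hmn
  rcases le_total m n with h2 | h2
  · obtain ⟨k, rfl⟩ := Nat.exists_eq_add_of_le h2
    rw [add_nsmul, left_eq_add] at h1
    have := hb k h1
    omega
  · obtain ⟨k, rfl⟩ := Nat.exists_eq_add_of_le h2
    rw [add_nsmul, add_eq_left] at h1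
    have := hb k h1
    omega

lemma alignA {ι : AddCircle L → X} {b : AddCircle L}
    (hb : ∀ n : ℕ, n • b = 0 → n = 0) {g : Equiv.Perm X} (h : NR ι b g) {N : Set X}
    {m : AddCircle L} {ρ : ℝ} (hρ : 0 < ρ) (hL : 6 * ρ < L)
    (hN : {z | z ∈ ball m ρ ∧ ι z ∉ N}.Finite)
    (hD : ∀ n : ℕ, 2 * ρ ≤ ‖n • b‖ → ∀ x ∈ N, (g ^ n) x ∉ N) {x : X} (hx : x ∈ Io g)
    (hxN : x ∈ N) : lab ι b g x ∈ closedBall m ρ := by
  set y := lab ι b g x
  apply geo1 hρ hL
  intro z hz
  by_contra hcon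
  push Not at hcon
  have hU : IsOpen (ball m ρ ∩ {w | 2 * ρ < dist w y}) :=
    isOpen_ball.inter (isOpen_lt continuous_const (continuous_id.dist continuous_const))
  have hf := dens hb y hU ⟨z, hz, hcon⟩
  obtain ⟨n, hn1, hn2, hn3⟩ := (hf.and_eventually ((h.lab_spec hx).and (ev_notMem (inj_seq hb y) hN))).exists
  have h1 : ι (y + n • b) ∈ N := by
    by_contra h2
    exact hn3 ⟨hn1.1, h2⟩
  have h2 : 2 * ρ < ‖n • b‖ := by
    have := hn1.2
    simp only [Set.mem_ofPred_eq, dist_eq_norm, add_sub_cancel_left] at this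
    exact this
  exact hD n h2.le x hxN (by rw [hn2]; exact h1)

theorem align {ι : AddCircle L → X} (hι : Function.Injective ι) {b : AddCircle L}
    (hb : ∀ n : ℕ, n • b = 0 → n = 0) {g : Equiv.Perm X} (h : NR ι b g) {N : Set X}
    {m : AddCircle L} {ρ : ℝ} (hρ : 0 < ρ) (hL : 6 * ρ < L)
    (hN : {z | z ∈ ball m ρ ∧ ι z ∉ N}.Finite)
    (hD : ∀ n : ℕ, 2 * ρ ≤ ‖n • b‖ → ∀ x ∈ N, (g ^ n) x ∉ N) :
    ∀ x ∈ Io g, lab ι b g x = lab ι (-b) g⁻¹ x := by
  intro x hx
  have hb' : ∀ n : ℕ, n • (-b) = 0 → n = 0 := fun n hn => hb n (by simpa using hn)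
  have hD' : ∀ n : ℕ, 2 * ρ ≤ ‖n • (-b)‖ → ∀ x ∈ N, (g⁻¹ ^ n) x ∉ N := by
    intro n hn x hxN hcon
    rw [smul_neg, norm_neg] at hn
    refine hD n hn _ hcon ?_
    have : (g ^ n) ((g⁻¹ ^ n) x) = x := by simp
    rw [this]; exact hxN
  have hls := h.lab_spec hx
  have hlp := h.lab_inv_pow hι hx
  generalize lab ι b g x = y at *
  generalize lab ι (-b) g⁻¹ x = y' at *
  have key : y' - y = 0 := by
    apply geo2 hρ hL
    intro z hz
    by_contra hcon
    have hU2 : IsOpen {w : AddCircle L | w + (y' - y) ∉ closedBall m ρ} := by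
      have h1 : IsClosed {w : AddCircle L | w + (y' - y) ∈ closedBall m ρ} :=
        isClosed_closedBall.preimage (continuous_id.add continuous_const)
      exact h1.isOpen_compl
    have hU : IsOpen (ball m ρ ∩ {w | w + (y' - y) ∉ closedBall m ρ}) := isOpen_ball.inter hU2
    have hf := dens hb y hU ⟨z, hz, hcon⟩
    obtain ⟨n, hn1, hn2, hn3⟩ := (hf.and_eventually (hls.and (ev_notMem (inj_seq hb y) hN))).exists
    have h1 : (g ^ n) x ∈ N := by
      rw [hn2]
      by_contra h2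
      exact hn3 ⟨hn1.1, h2⟩
    have h2 := alignA hb' h.inv hρ hL hN hD' (x := (g ^ n) x) (by rw [Io_inv]; exact pow_Io hx n) h1
    rw [hlp] at h2
    apply hn1.2
    have e : y + n • b + (y' - y) = y' + n • b := by abel
    rw [e]; exact h2
  have := sub_eq_zero.1 key
  exact this.symm

end Pool.Agent.R290.FL
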