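import Pool.Agent.R290.FL.Rot

/-!
The main argument.
-/

open Set Filter Topology Metric

namespace Pool.Agent.R290.FL

open Pool.Agent.R291

/-- `F` is, off a finite set, equal to `f` on the circle and to the identity on `Y`. -/
def Agr {Y : Type*} (F : Equiv.Perm (S1 ⊕ Y)) (f : Equiv.Perm S1) : Prop :=
  {x : S1 ⊕ Y | F x ≠ Sum.map f id x}.Finite

lemma th_one (z : S1) : th 1 z = z := by
  obtain ⟨t, ht, rfl⟩ := exists_th (L := 1) z
  rw [th_coe ht]

lemma Rt_one (hi : Function.Injective (th 1)) (b : S1) : Rt hi b = Equiv.addRight b := by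
  ext z
  have := Rt_th hi b z
  rw [th_one, th_one] at this
  rw [this]; rfl

variable {Y : Type*}

/-- The copy of the circle of length `L`. -/
noncomputable def io (Y : Type*) (L : ℝ) [Fact (0 < L)] (z : AddCircle L) : S1 ⊕ Y := Sum.inl (th L z)

lemma io_inj {L : ℝ} [Fact (0 < L)] (hL : L ≤ 1) : Function.Injective (io Y L) :=
  Sum.inl_injective.comp (th_inj hL)

lemma io_one (z : S1) : io Y 1 z = Sum.inl z := by unfold io; rw [th_one]

lemma NR_of_agr {L : ℝ} [Fact (0 < L)] (hL : L ≤ 1) (b : AddCircle L) {F : Equiv.Perm (S1 ⊕ Y)}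
    (hF : Agr F (Rt (th_inj hL) b)) : NR (io Y L) b F := by
  constructor
  · refine (hF.preimage (io_inj hL).injOn).subset fun z hz => ?_
    intro h
    apply hz
    show F (io Y L z) = _
    rw [h]
    show Sum.inl (Rt (th_inj hL) b (th L z)) = Sum.inl _
    rw [Rt_th]
  · refine hF.subset fun x hx => ?_
    obtain ⟨h1, h2⟩ := hx
    intro h
    apply h2
    rw [h]
    rcases x with x | x
    · show Sum.inl (Rt (th_inj hL) b x) = Sum.inl x
      rw [Rt_off]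
      rintro ⟨z, rfl⟩
      exact h1 ⟨z, rfl⟩
    · rfl

lemma Io_ne {X : Type*} {g : Equiv.Perm X} {x : X} (hx : x ∈ Io g) : g x ≠ x := by
  intro h
  have h3 := mem_Io.1 hx 1 (by simpa using h)
  omega

lemma no_common {Γ : Subgroup (NearPerm S1)} {Φ : Γ →* Equiv.Perm (S1 ⊕ Y)}
    (hΦ : ∀ (γ : Γ) (f : Equiv.Perm S1), cls S1 f = γ → Agr (Φ γ) f) {γ₁ γ₂ : Γ}
    {f g : Equiv.Perm S1} (h1 : cls S1 f = γ₁) (h2 : cls S1 g = γ₂) (hd : Equiv.Perm.Disjoint f g)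
    {x : S1 ⊕ Y} (hx1 : x ∈ Io (Φ γ₁)) (hx2 : x ∈ Io (Φ γ₂)) : False := by
  have hc : Commute γ₁ γ₂ := by
    apply Subtype.ext
    show (γ₁ : NearPerm S1) * γ₂ = γ₂ * γ₁
    rw [← h1, ← h2, ← map_mul, ← map_mul, hd.commute.eq]
  have hc' : Commute (Φ γ₁) (Φ γ₂) := hc.map Φ
  refine Io_disj hc' (((hΦ _ _ h1).union (hΦ _ _ h2)).subset ?_) hx1 hx2
  rintro x ⟨hx, hx'⟩
  by_contra hcon
  simp only [Set.mem_union, Set.mem_ofPred_eq, not_or, not_not] at hcon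
  obtain ⟨e1, e2⟩ := hcon
  have n1 := Io_ne hx
  have n2 := Io_ne hx'
  rw [e1] at n1
  rw [e2] at n2
  rcases x with x | x
  · rcases hd x with h | h
    · exact n1 (by show Sum.inl (f x) = _; rw [h])
    · exact n2 (by show Sum.inl (g x) = _; rw [h])
  · exact n1 rfl

lemma shift_Io {X : Type*} {g t : Equiv.Perm X} {x : X} (n : ℕ) (hx : x ∈ Io t) :
    (g ^ n) x ∈ Io (g ^ n * t * (g ^ n)⁻¹) := by
  rw [conj_Io]
  simpa using hx

lemma near_id_surj {A : Type*} {h : A → A} (hi : Function.Injective h) (hf : {z | h z ≠ z}.Finite) :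
    Function.Surjective h := by
  have hmaps : MapsTo h {z | h z ≠ z} {z | h z ≠ z} := by
    intro z hz hz'
    exact hz (hi hz')
  have hsurj := ((hf.injOn_iff_bijOn_of_mapsTo hmaps).1 hi.injOn).surjOn
  intro z
  by_cases hz : h z = z
  · exact ⟨z, hz⟩
  · obtain ⟨w, _, hw⟩ := hsurj (show z ∈ {z | h z ≠ z} from hz)
    exact ⟨w, hw⟩

section Main

variable {Γ : Subgroup (NearPerm S1)} {Φ : Γ →* Equiv.Perm (S1 ⊕ Y)}
  (hΦ : ∀ (γ : Γ) (f : Equiv.Perm S1), cls S1 f = γ → Agr (Φ γ) f)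

include hΦ in
lemma hD_of {L c : ℝ} [Fact (0 < L)] [Fact (0 < c)] (hL1 : L ≤ 1) (hcL : c ≤ L) {b : AddCircle L}
    {b' : AddCircle c} {γg γu : Γ} (hg : cls S1 (Rt (th_inj hL1) b) = γg)
    (hu : cls S1 (Rt (th_inj (hcL.trans hL1)) b') = γu) (n : ℕ) (hn : c ≤ ‖n • b‖) (x : S1 ⊕ Y)
    (hx : x ∈ Io (Φ γu)) : ((Φ γg) ^ n) x ∉ Io (Φ γu) := by
  intro hx'
  have hd := Rt_disj (th_inj hL1) (th_inj (hcL.trans hL1)) hcL hL1 b b' hn
  have e : (Φ γg) ^ n * Φ γu * ((Φ γg) ^ n)⁻¹ = Φ (γg ^ n * γu * (γg ^ n)⁻¹) := by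
    rw [map_mul, map_mul, map_inv, map_pow]
  refine no_common hΦ hu (γ₂ := γg ^ n * γu * (γg ^ n)⁻¹) ?_ hd hx' ?_
  · rw [map_mul, map_mul, map_inv, map_pow, hg, hu]; rfl
  · rw [← e]
    exact shift_Io n hx

include hΦ in
theorem core {α c : ℝ} [Fact (0 < α)] [Fact (0 < c)] (hα : 3 * α < 1) (hc : 3 * c < α)
    (hα1 : α ≤ 1) (hc1 : c ≤ 1)
    {β : AddCircle α} {β' : AddCircle c} (hαo : ∀ n : ℕ, n • (α : S1) = 0 → n = 0)
    (hβ : ∀ n : ℕ, n • β = 0 → n = 0) (hβ' : ∀ n : ℕ, n • β' = 0 → n = 0)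
    (hr : cls S1 (Equiv.addRight (α : S1)) ∈ Γ) (hT : cls S1 (Rt (th_inj hα1) β) ∈ Γ)
    (hU : cls S1 (Rt (th_inj hc1) β') ∈ Γ) (hS : cls S1 (Sf (α : S1)) ∈ Γ) : False := by
  have hα0 : 0 < α := Fact.out
  have hc0 : 0 < c := Fact.out
  obtain ⟨γr, hγr⟩ : ∃ γ : Γ, cls S1 (Equiv.addRight (α : S1)) = γ := ⟨⟨_, hr⟩, rfl⟩
  obtain ⟨γT, hγT⟩ : ∃ γ : Γ, cls S1 (Rt (th_inj hα1) β) = γ := ⟨⟨_, hT⟩, rfl⟩
  obtain ⟨γU, hγU⟩ : ∃ γ : Γ, cls S1 (Rt (th_inj hc1) β') = γ := ⟨⟨_, hU⟩, rfl⟩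
  obtain ⟨γS, hγS⟩ : ∃ γ : Γ, cls S1 (Sf (α : S1)) = γ := ⟨⟨_, hS⟩, rfl⟩
  have hγr' : cls S1 (Rt (th_inj le_rfl) (α : S1)) = γr := by rw [Rt_one]; exact hγr
  have nR : NR (io Y 1) (α : S1) (Φ γr) := NR_of_agr le_rfl _ (hΦ _ _ hγr')
  have nT : NR (io Y α) β (Φ γT) := NR_of_agr hα1 _ (hΦ _ _ hγT)
  have nU : NR (io Y c) β' (Φ γU) := NR_of_agr hc1 _ (hΦ _ _ hγU)
  have hD1 := hD_of (Y := Y) hΦ le_rfl hα1 hγr' hγT
  have hD2 := hD_of (Y := Y) hΦ hα1 (show c ≤ α by linarith) hγT hγU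
  -- alignment
  have N1 : {z : S1 | z ∈ ball ((α / 2 : ℝ) : S1) (α / 2) ∧ io Y 1 z ∉ Io (Φ γT)}.Finite := by
    refine ((nT.inn (io_inj hα1) hβ).image (th α)).subset ?_
    rintro z ⟨hz1, hz2⟩
    obtain ⟨t, ht, rfl⟩ := oball_rep hz1
    refine ⟨(t : AddCircle α), ?_, th_coe ⟨ht.1.le, ht.2⟩⟩
    show io Y α _ ∉ _
    unfold io
    rw [th_coe ⟨ht.1.le, ht.2⟩]
    rw [io_one] at hz2
    exact hz2
  have N2 : {z : AddCircle α | z ∈ ball ((c / 2 : ℝ) : AddCircle α) (c / 2) ∧ io Y α z ∉ Io (Φ γU)}.Finite := by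
    refine ((((nU.inn (io_inj hc1) hβ').image (th c)).preimage (th_inj hα1).injOn)).subset ?_
    rintro z ⟨hz1, hz2⟩
    obtain ⟨t, ht, rfl⟩ := oball_rep hz1
    have e1 : th α (t : AddCircle α) = (t : S1) := th_coe ⟨ht.1.le, by linarith [ht.2]⟩
    have e2 : th c (t : AddCircle c) = (t : S1) := th_coe ⟨ht.1.le, ht.2⟩
    refine ⟨(t : AddCircle c), ?_, by rw [e1, e2]⟩
    show io Y c _ ∉ _
    unfold io
    unfold io at hz2
    rw [e1] at hz2
    rw [e2]; exact hz2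
  have al1 := align (io_inj le_rfl) hαo nR (m := ((α / 2 : ℝ) : S1)) (ρ := α / 2) (by linarith)
    (by linarith) N1 (fun n hn => hD1 n (by linarith))
  have al1' : ∀ x ∈ Io (Φ γr), x ∈ Io (Φ γT) → lab (io Y 1) (α : S1) (Φ γr) x ∈
      closedBall ((α / 2 : ℝ) : S1) (α / 2) := fun x hx hx' =>
    alignA hαo nR (by linarith) (by linarith) N1 (fun n hn => hD1 n (by linarith)) hx hx'
  have al2 := align (io_inj hα1) hβ nT (m := ((c / 2 : ℝ) : AddCircle α)) (ρ := c / 2) (by linarith)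
    (by linarith) N2 (fun n hn => hD2 n (by linarith))
  -- the infinite orbits of T are made of infinite orbits of R
  have sub1 : ∀ x ∈ Io (Φ γT), x ∈ Io (Φ γr) := by
    intro x hx
    by_contra hcon
    rw [mem_Io] at hcon
    push Not at hcon
    obtain ⟨n, hn, hn0⟩ := hcon
    have hper : ∃ m : ℕ, m ≠ 0 ∧ ((Φ γr) ^ m) x = x := by
      rcases Int.natAbs_eq n with h1 | h1
      · refine ⟨n.natAbs, by omega, ?_⟩
        rw [h1, zpow_natCast] at hn
        exact hn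
      · refine ⟨n.natAbs, by omega, ?_⟩
        rw [h1, zpow_neg, Equiv.Perm.inv_eq_iff_eq, zpow_natCast] at hn
        exact hn.symm
    obtain ⟨m, hm0, hm⟩ := hper
    have hb2 : ∀ k : ℕ, k • (m • (α : S1)) = 0 → k = 0 := by
      intro k hk
      rw [← mul_nsmul'] at hk
      have := hαo _ hk
      rcases Nat.mul_eq_zero.1 this with h | h
      · exact h
      · exact absurd h hm0
    have hopen : IsOpen {w : S1 | α < ‖w‖} := isOpen_lt continuous_const continuous_norm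
    have hhalf : ((1 / 2 : ℝ) : S1) ∈ {w : S1 | α < ‖w‖} := by
      show α < ‖((1 / 2 : ℝ) : S1)‖
      rw [nrm (by norm_num) (by norm_num), lt_min_iff]
      constructor <;> linarith
    obtain ⟨k, hk⟩ := (dens hb2 0 hopen ⟨_, hhalf⟩).exists
    rw [zero_add] at hk
    have hk' : α < ‖k • (m • (α : S1))‖ := hk
    rw [← mul_nsmul'] at hk'
    refine hD1 (k * m) hk'.le x hx ?_
    have : ∀ k : ℕ, ((Φ γr) ^ (k * m)) x = x := by
      intro k
      induction k with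
      | zero => simp
      | succ k ih => rw [Nat.succ_mul, pow_add, Equiv.Perm.mul_apply, hm, ih]
    rw [this]; exact hx
  -- the reflection
  have hSr : Φ γS * Φ γr = (Φ γr)⁻¹ * Φ γS := by
    rw [← map_inv, ← map_mul, ← map_mul]
    congr 1
    apply Subtype.ext
    show (γS : NearPerm S1) * γr = (γr : NearPerm S1)⁻¹ * γS
    rw [← hγS, ← hγr, ← map_inv, ← map_mul, ← map_mul, Sf_conj]
  have hST : Φ γS * Φ γT * (Φ γS)⁻¹ = (Φ γT)⁻¹ := by
    rw [← map_inv, ← map_mul, ← map_inv, ← map_mul]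
    congr 1
    apply Subtype.ext
    show (γS : NearPerm S1) * γT * (γS : NearPerm S1)⁻¹ = (γT : NearPerm S1)⁻¹
    have hSS : Sf (α : S1) * Sf (α : S1) = 1 := by
      ext x
      rw [Equiv.Perm.mul_apply, Sf_apply, Sf_apply, Equiv.Perm.one_apply]; abel
    have hSinv : (Sf (α : S1))⁻¹ = Sf (α : S1) := inv_eq_of_mul_eq_one_left hSS
    have h2 : cls S1 (Sf (α : S1) * Rt (th_inj hα1) β * Sf (α : S1) * Rt (th_inj hα1) β) = 1 := by
      rw [QuotientGroup.mk'_apply, QuotientGroup.eq_one_iff]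
      exact Sf_rel (by linarith) (th_inj hα1) β
    rw [← hγS, ← hγT, ← map_inv, ← map_inv, hSinv]
    rw [map_mul] at h2
    rw [← map_mul, ← map_mul, map_inv]
    exact eq_inv_of_mul_eq_one_left h2
  have hSIo : ∀ x ∈ Io (Φ γT), Φ γS x ∈ Io (Φ γT) := by
    intro x hx
    rw [← Io_inv, ← hST, conj_Io]
    simpa using hx
  have hSIr : ∀ x ∈ Io (Φ γr), Φ γS x ∈ Io (Φ γr) := by
    intro x hx
    have e : Φ γS * Φ γr * (Φ γS)⁻¹ = (Φ γr)⁻¹ := by
      rw [hSr, mul_assoc, mul_inv_cancel, mul_one]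
    rw [← Io_inv, ← e, conj_Io]
    simpa using hx
  have hSp : ∀ x ∈ Io (Φ γr), lab (io Y 1) (α : S1) (Φ γr) (Φ γS x) =
      -lab (io Y 1) (α : S1) (Φ γr) x + (α : S1) := by
    intro x hx
    rw [al1 _ (hSIr x hx)]
    apply lab_uniq (io_inj le_rfl)
    have hSnear : {w : S1 | Φ γS (io Y 1 w) ≠ io Y 1 (Sf (α : S1) w)}.Finite := by
      refine ((hΦ _ _ hγS).preimage (io_inj (Y := Y) (L := 1) le_rfl).injOn).subset fun w hw => ?_
      intro h
      apply hw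
      have h' : Φ γS (io Y 1 w) = Sum.map (Sf (α : S1)) id (io Y 1 w) := h
      rw [h', io_one, io_one]; rfl
    filter_upwards [nR.lab_spec hx, ev_notMem (inj_seq hαo (lab (io Y 1) (α : S1) (Φ γr) x)) hSnear]
      with n h1 h2
    have h3 : Φ γS (io Y 1 (lab (io Y 1) (α : S1) (Φ γr) x + n • (α : S1))) =
        io Y 1 (Sf (α : S1) (lab (io Y 1) (α : S1) (Φ γr) x + n • (α : S1))) := by
      by_contra h; exact h2 h
    have h4 : ∀ n : ℕ, (((Φ γr)⁻¹) ^ n) (Φ γS x) = Φ γS (((Φ γr) ^ n) x) := by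
      intro n
      induction n with
      | zero => simp
      | succ n ih =>
        rw [pow_succ', Equiv.Perm.mul_apply, ih, pow_succ', Equiv.Perm.mul_apply,
          ← Equiv.Perm.mul_apply, ← Equiv.Perm.mul_apply (Φ γS), hSr]
    rw [h4, h1, h3, Sf_apply]
    congr 1
    rw [smul_neg]
    abel
  -- no label at the ends
  have noend0 : ∀ x ∈ Io (Φ γT), lab (io Y 1) (α : S1) (Φ γr) x ≠ 0 := by
    intro x hx h0
    have h1 := hSp x (sub1 x hx)
    rw [h0, neg_zero, zero_add] at h1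
    have h2 := nR.lab_pow (io_inj le_rfl) (sub1 x hx) 1
    rw [h0, zero_add, one_nsmul, pow_one] at h2
    have h3 : Φ γS x = Φ γr x := nR.lab_inj (hSIr x (sub1 x hx))
      (by simpa using zpow_Io (sub1 x hx) 1) (by rw [h1, h2])
    refine hD1 1 ?_ x hx ?_
    · rw [one_nsmul, nrm hα0.le hα1, min_eq_left (by linarith)]
    · rw [pow_one, ← h3]; exact hSIo x hx
  have noend1 : ∀ x ∈ Io (Φ γT), lab (io Y 1) (α : S1) (Φ γr) x ≠ (α : S1) := by
    intro x hx h0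
    apply noend0 _ (hSIo x hx)
    rw [hSp x (sub1 x hx), h0, neg_add_cancel]
  -- the self map
  have ex : ∀ z : AddCircle α, ∃ w : AddCircle α, w ≠ 0 ∧ ∃ x ∈ Io (Φ γT),
      lab (io Y α) β (Φ γT) x = z ∧ lab (io Y 1) (α : S1) (Φ γr) x = th α w := by
    intro z
    obtain ⟨x, hx, hxz⟩ := nT.lab_surj (io_inj hα1) hβ z
    obtain ⟨t, ht, hte⟩ := ball_rep (al1' x (sub1 x hx) hx)
    have ht0 : t ≠ 0 := by
      intro h
      apply noend0 x hx
      rw [← hte, h]; simp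
    have ht1 : t ≠ α := by
      intro h
      apply noend1 x hx
      rw [← hte, h]
    have ht0' : 0 < t := lt_of_le_of_ne ht.1 (Ne.symm ht0)
    have ht1' : t < α := lt_of_le_of_ne ht.2 ht1
    refine ⟨(t : AddCircle α), ?_, x, hx, hxz, by rw [th_coe ⟨ht.1, ht1'⟩]; exact hte.symm⟩
    intro h
    have h5 : ‖(t : AddCircle α)‖ = 0 := by rw [h, norm_zero]
    rw [nrm ht.1 ht.2] at h5
    have : 0 < min t (α - t) := lt_min ht0' (by linarith)
    linarith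
  choose h hne X hXT hXz hXh using ex
  have hinj : Function.Injective h := by
    intro z z' hzz
    have e1 : lab (io Y 1) (α : S1) (Φ γr) (X z) = lab (io Y 1) (α : S1) (Φ γr) (X z') := by
      rw [hXh, hXh, hzz]
    have e2 : X z = X z' := nR.lab_inj (sub1 _ (hXT z)) (sub1 _ (hXT z')) e1
    rw [← hXz z, ← hXz z', e2]
  have hfin : {z | h z ≠ z}.Finite := by
    refine (((nT.lab_near (io_inj hα1) al2).union (nR.lab_near (io_inj le_rfl) al1)).image
      (lab (io Y α) β (Φ γT))).subset fun z hz => ?_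
    refine ⟨X z, ?_, hXz z⟩
    by_contra hcon
    simp only [Set.mem_union, Set.mem_ofPred_eq, not_or, not_and, not_not] at hcon
    have e1 := hcon.1 (hXT z)
    have e2 := hcon.2 (sub1 _ (hXT z))
    rw [hXz] at e1
    rw [hXh, io_one] at e2
    apply hz
    apply th_inj hα1
    have e3 : (Sum.inl (th α z) : S1 ⊕ Y) = Sum.inl (th α (h z)) := by
      rw [e2]; exact e1
    exact (Sum.inl_injective e3).symm
  obtain ⟨z, hz⟩ := near_id_surj hinj hfin 0
  exact hne z hz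

end Main

end Pool.Agent.R290.FL
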