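import Pool.Agent.R291.PCDefs

/-!
Interval exchanges with flips with breakpoints and translation parts in a subgroup of the circle.
-/

open Set Filter Topology

namespace Pool.Agent.R290.FL

open Pool.Agent.R291

/-- Off a finite subset of `Λ`, the permutation `f` is locally of the form `x ↦ ± x + l`, `l ∈ Λ`. -/
def IsFlip (Λ : AddSubgroup S1) (f : Equiv.Perm S1) : Prop :=
  ∃ P : Set S1, P.Finite ∧ P ⊆ Λ ∧ ∀ x ∉ P, ∃ l ∈ Λ,
    (∀ᶠ y in 𝓝 x, f y = y + l) ∨ (∀ᶠ y in 𝓝 x, f y = -y + l)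

/-- One of the two forms. -/
def fm (e : Bool) (l : S1) (x : S1) : S1 := (if e then x else -x) + l

lemma fm_cont (e : Bool) (l : S1) : Continuous (fm e l) := by
  cases e
  · show Continuous fun x : S1 => (if (false : Bool) then x else -x) + l
    simp only [Bool.false_eq_true, if_false]; fun_prop
  · show Continuous fun x : S1 => (if (true : Bool) then x else -x) + l
    simp only [if_true]; fun_prop

lemma fm_true (l x : S1) : fm true l x = x + l := rfl
lemma fm_false (l x : S1) : fm false l x = -x + l := rfl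

lemma fm_mem {Λ : AddSubgroup S1} {e : Bool} {l x : S1} (hl : l ∈ Λ) : fm e l x ∈ Λ ↔ x ∈ Λ := by
  cases e
  · rw [fm_false, Λ.add_mem_cancel_right hl, neg_mem_iff]
  · rw [fm_true, Λ.add_mem_cancel_right hl]

lemma isFlip_iff {Λ : AddSubgroup S1} {f : Equiv.Perm S1} : IsFlip Λ f ↔
    ∃ P : Set S1, P.Finite ∧ P ⊆ Λ ∧ ∀ x ∉ P, ∃ e : Bool, ∃ l ∈ Λ, ∀ᶠ y in 𝓝 x, f y = fm e l y := by
  constructor
  · rintro ⟨P, h1, h2, h3⟩
    refine ⟨P, h1, h2, fun x hx => ?_⟩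
    obtain ⟨l, hl, h | h⟩ := h3 x hx
    · exact ⟨true, l, hl, h⟩
    · exact ⟨false, l, hl, h⟩
  · rintro ⟨P, h1, h2, h3⟩
    refine ⟨P, h1, h2, fun x hx => ?_⟩
    obtain ⟨e, l, hl, h⟩ := h3 x hx
    cases e
    · exact ⟨l, hl, Or.inr h⟩
    · exact ⟨l, hl, Or.inl h⟩

lemma fm_comp (e e' : Bool) (l l' x : S1) :
    fm e l (fm e' l' x) = fm (e == e') (if e then l' + l else -l' + l) x := by
  cases e <;> cases e' <;> simp only [fm, if_true, if_false, Bool.false_eq_true] <;> simp <;> abel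

lemma IsFlip.mul {Λ : AddSubgroup S1} {f g : Equiv.Perm S1} (hf : IsFlip Λ f) (hg : IsFlip Λ g) :
    IsFlip Λ (f * g) := by
  rw [isFlip_iff] at *
  obtain ⟨P, hP, hPL, hPf⟩ := hf
  obtain ⟨Q, hQ, hQL, hQg⟩ := hg
  refine ⟨Q ∪ g ⁻¹' P, hQ.union (hP.preimage g.injective.injOn), ?_, ?_⟩
  · rintro x (hx | hx)
    · exact hQL hx
    · by_cases hxQ : x ∈ Q
      · exact hQL hxQ
      · obtain ⟨e, l, hl, h⟩ := hQg x hxQ
        have h1 := hPL hx
        rw [h.self_of_nhds] at h1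
        exact (fm_mem hl).1 h1
  · intro x hx
    rw [Set.mem_union, not_or] at hx
    obtain ⟨e, l, hl, h⟩ := hQg x hx.1
    obtain ⟨e', l', hl', h'⟩ := hPf (g x) hx.2
    refine ⟨e' == e, if e' then l + l' else -l + l', ?_, ?_⟩
    · split_ifs
      · exact Λ.add_mem hl hl'
      · exact Λ.add_mem (Λ.neg_mem hl) hl'
    · have hc : Tendsto g (𝓝 x) (𝓝 (g x)) := by
        have h1 : ContinuousAt g x := (fm_cont e l).continuousAt.congr (by
          filter_upwards [h] with y hy using hy.symm)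
        exact h1
      filter_upwards [h, hc.eventually h'] with y h1 h2
      rw [Equiv.Perm.mul_apply, h2, h1, fm_comp]

lemma clus {f : Equiv.Perm S1} {x y : S1} (hcl : MapClusterPt x (𝓝[≠] y) f.symm)
    {h1 h2 : S1 → S1} (c1 : Continuous h1) (c2 : Continuous h2)
    (hH : ∀ᶠ z in 𝓝[≠] x, f z = h1 z ∨ f z = h2 z) : y = h1 x ∨ y = h2 x := by
  by_contra hcon
  push Not at hcon
  obtain ⟨u1, v1, hu1, hv1, hd1⟩ := t2_separation_nhds hcon.1.symm
  obtain ⟨u2, v2, hu2, hv2, hd2⟩ := t2_separation_nhds hcon.2.symm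
  have hev : ∀ᶠ y' in 𝓝[≠] y, y' ∈ v1 ∧ y' ∈ v2 ∧ y' ≠ f x := by
    have e1 : ∀ᶠ y' in 𝓝[≠] y, y' ∈ v1 := mem_nhdsWithin_of_mem_nhds hv1
    have e2 : ∀ᶠ y' in 𝓝[≠] y, y' ∈ v2 := mem_nhdsWithin_of_mem_nhds hv2
    have e3 : ∀ᶠ y' in 𝓝[≠] y, y' ≠ f x := by
      by_cases hy : y = f x
      · rw [← hy]; exact self_mem_nhdsWithin
      · exact mem_nhdsWithin_of_mem_nhds (isOpen_ne.mem_nhds hy)
    exact e1.and (e2.and e3)
  have hV : ({z : S1 | z ≠ x → f z = h1 z ∨ f z = h2 z} ∩ (h1 ⁻¹' u1 ∩ h2 ⁻¹' u2)) ∈ 𝓝 x := by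
    refine inter_mem ?_ (inter_mem (c1.continuousAt hu1) (c2.continuousAt hu2))
    rw [eventually_nhdsWithin_iff] at hH
    exact hH
  have hfr := mapClusterPt_iff_frequently.1 hcl _ hV
  obtain ⟨y', ⟨e1, e2, e3⟩, e4, e5, e6⟩ := (hfr.and_eventually hev).exists
  have hne : f.symm y' ≠ x := by
    intro h; apply e6; rw [← h, f.apply_symm_apply]
  rcases e1 hne with h | h
  · rw [f.apply_symm_apply] at h
    exact Set.disjoint_left.1 hd1 e2 (h ▸ e4)
  · rw [f.apply_symm_apply] at h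
    exact Set.disjoint_left.1 hd2 e3 (h ▸ e5)

/-- On an interval without break points the form does not change. -/
lemma oneform {Λ : AddSubgroup S1} {f : Equiv.Perm S1} {a b : ℝ} (hab : a < b)
    (h : ∀ t ∈ Ioo a b, ∃ e : Bool, ∃ l ∈ Λ, ∀ᶠ y in 𝓝 (t : S1), f y = fm e l y) :
    ∃ e : Bool, ∃ l ∈ Λ, ∀ t ∈ Ioo a b, f (t : S1) = fm e l (t : S1) := by
  let E : Bool × S1 → Set ℝ := fun i => {t | ∀ᶠ s : ℝ in 𝓝 t, f (s : S1) = fm i.1 i.2 (s : S1)}
  have hE : ∀ i, IsOpen (E i) := by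
    intro i
    rw [isOpen_iff_mem_nhds]
    intro t ht
    exact eventually_eventually_nhds.2 ht
  have h' : ∀ t ∈ Ioo a b, ∃ i : Bool × S1, i.2 ∈ Λ ∧ t ∈ E i := by
    intro t ht
    obtain ⟨e, l, hl, h1⟩ := h t ht
    refine ⟨(e, l), hl, ?_⟩
    have : Tendsto (fun s : ℝ => (s : S1)) (𝓝 t) (𝓝 (t : S1)) :=
      (AddCircle.continuous_mk' (1 : ℝ)).continuousAt
    exact this.eventually h1
  have htf : ∀ (t : ℝ) (l l' : S1), t ∈ E (true, l) → t ∈ E (false, l') → False := by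
    intro t l l' h1 h2
    have h3 : ∀ᶠ s : ℝ in 𝓝 t, (s : S1) + l = -(s : S1) + l' := by
      filter_upwards [h1, h2] with s e1 e2
      have e1' : f (s : S1) = (s : S1) + l := e1
      have e2' : f (s : S1) = -(s : S1) + l' := e2
      rw [← e1', e2']
    have h3' := h3.self_of_nhds
    obtain ⟨δ, hδ, h4⟩ := Metric.eventually_nhds_iff.1 h3
    obtain ⟨η, hm, hη, hη2⟩ : ∃ η : ℝ, 0 < η ∧ η ≤ 1 / 4 ∧ η < δ :=
      ⟨min (δ / 2) (1 / 4), by positivity, min_le_right _ _, (min_le_left _ _).trans_lt (by linarith)⟩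
    have h5 := h4 (y := t + η) (by
      rw [Real.dist_eq, add_sub_cancel_left, abs_of_pos hm]
      exact hη2)
    have h6 : ((η + η : ℝ) : S1) = 0 := by
      rw [AddCircle.coe_add] at h5 ⊢
      have e7 : (η : S1) + (η : S1) = ((t : S1) + (η : S1) + l) - (-((t : S1) + (η : S1)) + l') - (((t : S1) + l) - (-(t : S1) + l')) := by abel
      rw [e7, h5, h3', sub_self, sub_self, sub_self]
    rw [AddCircle.coe_eq_zero_iff] at h6
    obtain ⟨n, hn⟩ := h6
    rw [zsmul_eq_mul, mul_one] at hn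
    have h7 : (0 : ℝ) < n := by rw [hn]; positivity
    have h8 : (n : ℝ) < 1 := by rw [hn]; linarith
    have h9 : (0 : ℤ) < n := by exact_mod_cast h7
    have h10 : n < (1 : ℤ) := by exact_mod_cast h8
    omega
  have hdis : ∀ i j t, t ∈ E i → t ∈ E j → i = j := by
    rintro ⟨e, l⟩ ⟨e', l'⟩ t h1 h2
    cases e <;> cases e'
    · have e1 := h1.self_of_nhds
      have e2 := h2.self_of_nhds
      rw [e1] at e2
      have := add_left_cancel (show -(t : S1) + l = -(t : S1) + l' from e2)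
      rw [this]
    · exact (htf t l' l h2 h1).elim
    · exact (htf t l l' h1 h2).elim
    · have e1 := h1.self_of_nhds
      have e2 := h2.self_of_nhds
      rw [e1] at e2
      have := add_left_cancel (show (t : S1) + l = (t : S1) + l' from e2)
      rw [this]
  obtain ⟨t0, ht0⟩ := nonempty_Ioo.2 hab
  obtain ⟨i0, hi0, hti0⟩ := h' t0 ht0
  have hpre : IsPreconnected (Ioo a b) := isPreconnected_Ioo
  have hcov : Ioo a b ⊆ E i0 ∪ ⋃ j ∈ {j | j ≠ i0}, E j := by
    intro t ht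
    obtain ⟨i, _, hi⟩ := h' t ht
    by_cases hii : i = i0
    · left; rw [← hii]; exact hi
    · right
      simp only [Set.mem_iUnion]
      exact ⟨i, hii, hi⟩
  have hdisj : Ioo a b ∩ (E i0 ∩ ⋃ j ∈ {j | j ≠ i0}, E j) = ∅ := by
    ext t
    simp only [Set.mem_inter_iff, Set.mem_iUnion, Set.mem_empty_iff_false, iff_false]
    rintro ⟨_, h1, j, hj, h2⟩
    exact hj (hdis j i0 t h2 h1)
  rcases (isPreconnected_iff_subset_of_disjoint.1 hpre) _ _ (hE i0)
    (isOpen_biUnion fun j _ => hE j) hcov hdisj with h1 | h1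
  · exact ⟨i0.1, i0.2, hi0, fun t ht => (h1 ht).self_of_nhds⟩
  · exfalso
    have h2 := h1 ht0
    simp only [Set.mem_iUnion] at h2
    obtain ⟨j, hj, h3⟩ := h2
    exact hj (hdis j i0 t0 h3 hti0)

end Pool.Agent.R290.FL
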