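import Pool.Agent.R290.FL.FlipDef

/-!
Interval exchanges with flips form a group.
-/

open Set Filter Topology

namespace Pool.Agent.R290.FL

open Pool.Agent.R291

lemma S1_neBot (y : S1) : NeBot (𝓝[≠] y) := by
  have h1 : Nontrivial S1 := by
    refine ⟨0, ((1 / 2 : ℝ) : S1), fun h => ?_⟩
    have h2 := h.symm
    rw [AddCircle.coe_eq_zero_iff] at h2
    obtain ⟨n, hn⟩ := h2
    rw [zsmul_eq_mul, mul_one] at hn
    have h7 : (0 : ℝ) < n := by rw [hn]; norm_num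
    have h8 : (n : ℝ) < 1 := by rw [hn]; norm_num
    have h9 : (0 : ℤ) < n := by exact_mod_cast h7
    have h10 : n < (1 : ℤ) := by exact_mod_cast h8
    omega
  have h2 : ConnectedSpace S1 := inferInstance
  exact ConnectedSpace.neBot_nhdsWithin_compl_of_nontrivial_of_t1space y

lemma fm_inv_ex (e : Bool) (l : S1) {Λ : AddSubgroup S1} (hl : l ∈ Λ) :
    ∃ l' ∈ Λ, (∀ x, fm e l (fm e l' x) = x) ∧ ∀ x, fm e l' (fm e l x) = x := by
  cases e
  · refine ⟨l, hl, fun x => ?_, fun x => ?_⟩ <;> rw [fm_false, fm_false] <;> abel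
  · refine ⟨-l, Λ.neg_mem hl, fun x => ?_, fun x => ?_⟩ <;> rw [fm_true, fm_true] <;> abel

/-- near every point there are at most two forms -/
lemma twoforms {Λ : AddSubgroup S1} {f : Equiv.Perm S1} {P : Set S1} (hP : P.Finite)
    (h : ∀ x ∉ P, ∃ e : Bool, ∃ l ∈ Λ, ∀ᶠ y in 𝓝 x, f y = fm e l y) (x : S1) :
    ∃ e1 : Bool, ∃ l1 ∈ Λ, ∃ e2 : Bool, ∃ l2 ∈ Λ, ∀ᶠ z in 𝓝[≠] x, f z = fm e1 l1 z ∨ f z = fm e2 l2 z := by
  obtain ⟨t0, rfl⟩ := QuotientAddGroup.mk_surjective x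
  have hopen : IsOpen (P \ {(t0 : S1)})ᶜ := (hP.subset sdiff_subset).isClosed.isOpen_compl
  have hpre : ∀ᶠ t : ℝ in 𝓝 t0, (t : S1) ∈ (P \ {(t0 : S1)})ᶜ := by
    have h1 : Tendsto (fun s : ℝ => (s : S1)) (𝓝 t0) (𝓝 (t0 : S1)) :=
      (AddCircle.continuous_mk' (1 : ℝ)).continuousAt
    exact h1.eventually (hopen.mem_nhds (fun hx => hx.2 rfl))
  obtain ⟨δ, hδ, h4⟩ := Metric.eventually_nhds_iff.1 hpre
  obtain ⟨η, hm, hη, hη2⟩ : ∃ η : ℝ, 0 < η ∧ η ≤ 1 / 4 ∧ η < δ :=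
    ⟨min (δ / 2) (1 / 4), by positivity, min_le_right _ _, (min_le_left _ _).trans_lt (by linarith)⟩
  have hgood : ∀ t : ℝ, |t - t0| < η → t ≠ t0 → (t : S1) ∉ P := by
    intro t ht hne htP
    have h5 := h4 (y := t) (by rw [Real.dist_eq]; linarith)
    apply h5
    refine ⟨htP, fun h6 => hne ?_⟩
    have h7 : ((t - t0 : ℝ) : S1) = 0 := by
      rw [AddCircle.coe_sub]
      exact sub_eq_zero.2 h6
    rw [AddCircle.coe_eq_zero_iff] at h7
    obtain ⟨n, hn⟩ := h7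
    rw [zsmul_eq_mul, mul_one] at hn
    rw [← hn, abs_lt] at ht
    have h8 : (-1 : ℝ) < n := by linarith [ht.1]
    have h9 : (n : ℝ) < 1 := by linarith [ht.2]
    have h10 : (-1 : ℤ) < n := by exact_mod_cast h8
    have h11 : n < (1 : ℤ) := by exact_mod_cast h9
    have h12 : n = 0 := by omega
    rw [h12] at hn
    push_cast at hn
    linarith
  obtain ⟨e1, l1, hl1, hf1⟩ := oneform (Λ := Λ) (f := f) (show t0 - η < t0 by linarith)
    (fun t ht => h _ (hgood t (by rw [abs_lt]; constructor <;> linarith [ht.1, ht.2]) (by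
      have := ht.2; exact this.ne)))
  obtain ⟨e2, l2, hl2, hf2⟩ := oneform (Λ := Λ) (f := f) (show t0 < t0 + η by linarith)
    (fun t ht => h _ (hgood t (by rw [abs_lt]; constructor <;> linarith [ht.1, ht.2]) (by
      have := ht.1; exact this.ne')))
  refine ⟨e1, l1, hl1, e2, l2, hl2, ?_⟩
  rw [eventually_nhdsWithin_iff]
  have hV : (fun t : ℝ => (t : S1)) '' Ioo (t0 - η) (t0 + η) ∈ 𝓝 ((t0 : S1)) :=
    (QuotientAddGroup.isOpenMap_coe _ isOpen_Ioo).mem_nhds ⟨t0, ⟨by linarith, by linarith⟩, rfl⟩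
  filter_upwards [hV] with z hz hne
  obtain ⟨t, ht, rfl⟩ := hz
  rcases lt_trichotomy t t0 with h5 | h5 | h5
  · exact Or.inl (hf1 t ⟨ht.1, h5⟩)
  · exact absurd (by rw [h5]; rfl) hne
  · exact Or.inr (hf2 t ⟨h5, ht.2⟩)

lemma IsFlip.inv {Λ : AddSubgroup S1} {f : Equiv.Perm S1} (hf : IsFlip Λ f) : IsFlip Λ f⁻¹ := by
  rw [isFlip_iff] at *
  obtain ⟨P, hP, hPL, hPf⟩ := hf
  refine ⟨f '' P, hP.image f, ?_, ?_⟩
  · rintro _ ⟨p, hp, rfl⟩
    by_contra hy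
    have := S1_neBot (f p)
    obtain ⟨x, hx⟩ := exists_clusterPt_of_compactSpace (Filter.map f.symm (𝓝[≠] (f p)))
    have hcl : MapClusterPt x (𝓝[≠] (f p)) f.symm := hx
    obtain ⟨e1, l1, hl1, e2, l2, hl2, h12⟩ := twoforms hP hPf x
    have hxL : x ∉ Λ := by
      intro hxL
      rcases clus hcl (fm_cont e1 l1) (fm_cont e2 l2) h12 with h | h
      · apply hy; rw [h]; exact (fm_mem hl1).2 hxL
      · apply hy; rw [h]; exact (fm_mem hl2).2 hxL
    obtain ⟨e, l, hl, h⟩ := hPf x (fun h => hxL (hPL h))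
    have h3 : ∀ᶠ z in 𝓝[≠] x, f z = fm e l z ∨ f z = fm e l z := by
      refine mem_nhdsWithin_of_mem_nhds ?_
      filter_upwards [h] with z hz using Or.inl hz
    have h4 : f p = fm e l x := by
      rcases clus hcl (fm_cont e l) (fm_cont e l) h3 with h | h <;> exact h
    rw [← h.self_of_nhds] at h4
    rw [← f.injective h4] at hxL
    exact hxL (hPL hp)
  · intro y hy
    have hx : f⁻¹ y ∉ P := fun h => hy ⟨_, h, by simp⟩
    obtain ⟨e, l, hl, h⟩ := hPf _ hx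
    obtain ⟨l', hl', h1, h2⟩ := fm_inv_ex e l hl
    refine ⟨e, l', hl', ?_⟩
    have h3 : fm e l' y = f⁻¹ y := by
      have h4 := h.self_of_nhds
      have h5 : f (f⁻¹ y) = y := by simp
      rw [h5] at h4
      rw [h4, h2, ← h4]
    have hc : Tendsto (fm e l') (𝓝 y) (𝓝 (f⁻¹ y)) := by
      rw [← h3]
      exact (fm_cont e l').continuousAt
    filter_upwards [hc.eventually h] with y' hy'
    rw [h1] at hy'
    rw [Equiv.Perm.inv_eq_iff_eq]
    exact hy'.symm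

lemma IsFlip.one (Λ : AddSubgroup S1) : IsFlip Λ 1 :=
  ⟨∅, Set.finite_empty, Set.empty_subset _, fun x _ => ⟨0, Λ.zero_mem, Or.inl (by
    filter_upwards with y
    rw [Equiv.Perm.one_apply, add_zero])⟩⟩

/-- The group `IET^⋈_Λ`. -/
def IETflip (Λ : AddSubgroup S1) : Subgroup (NearPerm S1) where
  carrier := {γ | ∃ f : Equiv.Perm S1, IsFlip Λ f ∧ cls S1 f = γ}
  mul_mem' := by
    rintro _ _ ⟨f, hf, rfl⟩ ⟨g, hg, rfl⟩
    exact ⟨f * g, hf.mul hg, map_mul _ _ _⟩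
  one_mem' := ⟨1, IsFlip.one Λ, map_one _⟩
  inv_mem' := by
    rintro _ ⟨f, hf, rfl⟩
    exact ⟨f⁻¹, hf.inv, map_inv _ _⟩

end Pool.Agent.R290.FL
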