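import Pool.Agent.R290.FL.Core
import Pool.Agent.R290.FL.FlipInv

/-!
The group of interval exchanges with flips over a subgroup of the circle which contains an element
of infinite order is not stably realizable.
-/

open Set Filter Topology

namespace Pool.Agent.R290.FL

open Pool.Agent.R291

/-- `Γ` is stably realizable: for some set `Y` the homomorphism from `Γ` to the permutations of
`S1 ⊔ Y` modulo the finitely supported ones, given by the action of `Γ` on `S1` and the trivial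
action on `Y`, lifts to a homomorphism into the permutations of `S1 ⊔ Y`. -/
def StablyRealizable.{u} (Γ : Subgroup (NearPerm S1)) : Prop :=
  ∃ (Y : Type u) (Φ : Γ →* Equiv.Perm (S1 ⊕ Y)),
    ∀ (γ : Γ) (f : Equiv.Perm S1), cls S1 f = γ → {x : S1 ⊕ Y | Φ γ x ≠ Sum.map f id x}.Finite

lemma cls_eq_iff {f g : Equiv.Perm S1} : cls S1 f = cls S1 g ↔ {x | f x ≠ g x}.Finite := by
  have h1 : cls S1 f = cls S1 g ↔ f⁻¹ * g ∈ finSupp S1 := by
    rw [QuotientGroup.mk'_apply, QuotientGroup.mk'_apply]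
    exact QuotientGroup.eq
  rw [h1]
  have h2 : {x | f x ≠ g x} = {x | (f⁻¹ * g) x ≠ x} := by
    ext x
    simp only [Set.mem_ofPred_eq, Equiv.Perm.mul_apply, ne_eq, not_iff_not]
    rw [Equiv.Perm.inv_eq_iff_eq]
    exact eq_comm
  rw [h2]; rfl

theorem Realizable.stably.{u} {Γ : Subgroup (NearPerm S1)} (h : Realizable Γ) :
    StablyRealizable.{u} Γ := by
  obtain ⟨Δ, _, hB⟩ := h
  let ψ : Δ →* Γ := ((cls S1).comp Δ.subtype).codRestrict Γ (fun x => hB.mapsTo x.2)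
  have hψ : Function.Bijective ψ := by
    constructor
    · intro x y hxy
      apply Subtype.ext
      exact hB.injOn x.2 y.2 (congrArg Subtype.val hxy)
    · intro γ
      obtain ⟨f, hf, hfγ⟩ := hB.surjOn γ.2
      exact ⟨⟨f, hf⟩, Subtype.ext hfγ⟩
  let e : Δ ≃* Γ := MulEquiv.ofBijective ψ hψ
  have he : ∀ γ : Γ, cls S1 ((e.symm γ : Δ) : Equiv.Perm S1) = γ := by
    intro γ
    have h1 : e (e.symm γ) = γ := e.apply_symm_apply γ
    exact congrArg Subtype.val h1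
  let J : Equiv.Perm S1 →* Equiv.Perm (S1 ⊕ PEmpty.{u + 1}) :=
    { toFun := fun g => Equiv.sumCongr g (Equiv.refl _)
      map_one' := by
        ext y : 1
        rcases y with y | y <;> rfl
      map_mul' := fun g h => by
        ext y : 1
        rcases y with y | y <;> rfl }
  refine ⟨PEmpty.{u + 1}, (J.comp Δ.subtype).comp e.symm.toMonoidHom, fun γ f hf => ?_⟩
  have h1 : cls S1 ((e.symm γ : Δ) : Equiv.Perm S1) = cls S1 f := by rw [he, hf]
  have h2 := cls_eq_iff.1 h1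
  refine (h2.image Sum.inl).subset fun x hx => ?_
  rcases x with x | x
  · refine ⟨x, fun h3 => hx ?_, rfl⟩
    show Sum.inl (((e.symm γ : Δ) : Equiv.Perm S1) x) = Sum.inl (f x)
    rw [h3]
  · exact x.elim

lemma flip_add {Λ : AddSubgroup S1} {l : S1} (hl : l ∈ Λ) : IsFlip Λ (Equiv.addRight l) :=
  ⟨∅, Set.finite_empty, Set.empty_subset _, fun x _ => ⟨l, hl, Or.inl (by
    filter_upwards with y
    rfl)⟩⟩

lemma flip_Sf {Λ : AddSubgroup S1} {l : S1} (hl : l ∈ Λ) : IsFlip Λ (Sf l) :=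
  ⟨∅, Set.finite_empty, Set.empty_subset _, fun x _ => ⟨l, hl, Or.inr (by
    filter_upwards with y
    rfl)⟩⟩

lemma flip_Rt {Λ : AddSubgroup S1} {L β : ℝ} [hL0 : Fact (0 < L)] (hL1 : L < 1)
    (hi : Function.Injective (th L)) (hL : (L : S1) ∈ Λ) (hβ : (β : S1) ∈ Λ) (h0 : 0 < β) (h1 : β < L) :
    IsFlip Λ (Rt hi (β : AddCircle L)) := by
  have hLβ : ((L - β : ℝ) : S1) ∈ Λ := by
    rw [AddCircle.coe_sub]; exact Λ.sub_mem hL hβ
  refine ⟨{0, ((L - β : ℝ) : S1), (L : S1)}, Set.toFinite _, ?_, ?_⟩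
  · intro x hx
    simp only [Set.mem_insert_iff, Set.mem_singleton_iff] at hx
    rcases hx with rfl | rfl | rfl
    · exact Λ.zero_mem
    · exact hLβ
    · exact hL
  · intro x hx
    simp only [Set.mem_insert_iff, Set.mem_singleton_iff, not_or] at hx
    obtain ⟨x0, x1, x2⟩ := hx
    obtain ⟨t, ht, rfl⟩ := exists_th (L := 1) x
    have t0 : t ≠ 0 := by rintro rfl; apply x0; simp
    have t1 : t ≠ L - β := by rintro rfl; exact x1 rfl
    have t2 : t ≠ L := by rintro rfl; exact x2 rfl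
    have t0' : 0 < t := lt_of_le_of_ne ht.1 (Ne.symm t0)
    have nb : ∀ a b : ℝ, t ∈ Ioo a b → ∀ᶠ y in 𝓝 (t : S1), ∃ u ∈ Ioo a b, (u : S1) = y := by
      intro a b hab
      exact (QuotientAddGroup.isOpenMap_coe _ isOpen_Ioo).mem_nhds ⟨t, hab, rfl⟩
    rcases lt_trichotomy t (L - β) with h2 | h2 | h2
    · refine ⟨(β : S1), hβ, Or.inl ?_⟩
      filter_upwards [nb 0 (L - β) ⟨t0', h2⟩] with y hy
      obtain ⟨u, hu, rfl⟩ := hy
      rw [← th_coe (L := L) ⟨hu.1.le, by linarith [hu.2]⟩, Rt_th, ← AddCircle.coe_add,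
        th_coe ⟨by linarith [hu.1], by linarith [hu.2]⟩, th_coe ⟨hu.1.le, by linarith [hu.2]⟩,
        AddCircle.coe_add]
    · exact absurd h2 t1
    · rcases lt_trichotomy t L with h3 | h3 | h3
      · refine ⟨(β : S1) - (L : S1), Λ.sub_mem hβ hL, Or.inl ?_⟩
        filter_upwards [nb (L - β) L ⟨h2, h3⟩] with y hy
        obtain ⟨u, hu, rfl⟩ := hy
        have e1 : (u : AddCircle L) + (β : AddCircle L) = ((u + β - L : ℝ) : AddCircle L) := by
          rw [AddCircle.coe_sub, AddCircle.coe_period, sub_zero, AddCircle.coe_add]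
        rw [← th_coe (L := L) ⟨by linarith [hu.1], by linarith [hu.2]⟩, Rt_th, e1,
          th_coe ⟨by linarith [hu.1], by linarith [hu.2]⟩,
          th_coe ⟨by linarith [hu.1], by linarith [hu.2]⟩, AddCircle.coe_sub, AddCircle.coe_add]
        abel
      · exact absurd h3 t2
      · refine ⟨0, Λ.zero_mem, Or.inl ?_⟩
        filter_upwards [nb L 1 ⟨h3, ht.2⟩] with y hy
        obtain ⟨u, hu, rfl⟩ := hy
        rw [Rt_off, add_zero]
        intro hr
        obtain ⟨s, hs, hse⟩ := mem_range_th.1 hr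
        have h5 := coe_inj_Ico ⟨hs.1, hs.2.trans hL1⟩ ⟨by linarith [hu.1, hL0.out], hu.2⟩ hse
        linarith [hs.2, hu.1]

lemma exists_small {Λ : AddSubgroup S1} {a : S1} (ha : a ∈ Λ) (h0 : addOrderOf a = 0) {ε : ℝ}
    (hε : 0 < ε) (hε1 : ε < 1) :
    ∃ c ∈ Ioo 0 ε, (c : S1) ∈ Λ ∧ ∀ n : ℕ, n • (c : S1) = 0 → n = 0 := by
  have hb : ∀ n : ℕ, n • a = 0 → n = 0 := by
    intro n hn
    by_contra hne
    exact (addOrderOf_eq_zero_iff'.1 h0) n (Nat.pos_of_ne_zero hne) hn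
  have hopen : IsOpen ((fun t : ℝ => (t : S1)) '' Ioo 0 ε) :=
    QuotientAddGroup.isOpenMap_coe _ isOpen_Ioo
  obtain ⟨n, hn⟩ := (dens hb 0 hopen ⟨_, ε / 2, ⟨by linarith, by linarith⟩, rfl⟩).exists
  rw [zero_add] at hn
  obtain ⟨c, hc, hce⟩ := hn
  have hce' : (c : S1) = n • a := hce
  refine ⟨c, hc, by rw [hce']; exact Λ.nsmul_mem ha n, fun k hk => ?_⟩
  rw [hce', ← mul_nsmul'] at hk
  rcases Nat.mul_eq_zero.1 (hb _ hk) with h | h
  · exact h
  · exfalso
    rw [h, zero_nsmul] at hce'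
    have := coe_inj_Ico (t := 0) ⟨hc.1.le, hc.2.trans hε1⟩ ⟨le_rfl, one_pos⟩ (by rw [hce']; simp)
    linarith [hc.1]

lemma exists_rot {Λ : AddSubgroup S1} {c : ℝ} [hc0 : Fact (0 < c)] (hc1 : c < 1) (hc : (c : S1) ∈ Λ)
    (hco : ∀ n : ℕ, n • (c : S1) = 0 → n = 0) :
    ∃ β ∈ Ioo 0 c, (β : S1) ∈ Λ ∧ ∀ n : ℕ, n • (β : AddCircle c) = 0 → n = 0 := by
  have hcpos := hc0.out
  have hcz : ∀ n : ℤ, n • (c : S1) = 0 → n = 0 := by
    intro n hn
    rcases Int.natAbs_eq n with h1 | h1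
    · rw [h1, natCast_zsmul] at hn
      have := hco _ hn
      omega
    · rw [h1, neg_zsmul, neg_eq_zero, natCast_zsmul] at hn
      have := hco _ hn
      omega
  set m : ℤ := ⌊1 / c⌋
  have hm1 : (m : ℝ) ≤ 1 / c := Int.floor_le _
  have hm2 : 1 / c < m + 1 := Int.lt_floor_add_one _
  have hmpos : (m : ℝ) * c ≤ 1 := by rw [le_div_iff₀ hcpos] at hm1; exact hm1
  have hmlt : 1 < (m + 1 : ℝ) * c := by rw [div_lt_iff₀ hcpos] at hm2; exact hm2
  have hS : ((1 - m * c : ℝ) : S1) = -(m • (c : S1)) := by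
    rw [AddCircle.coe_sub, AddCircle.coe_period, zero_sub, ← zsmul_eq_mul, AddCircle.coe_zsmul]
  have hne : (m : ℝ) * c ≠ 1 := by
    intro h
    have h2 : m • (c : S1) = 0 := by
      have : ((1 - m * c : ℝ) : S1) = 0 := by rw [h, sub_self]; rfl
      rw [this] at hS
      exact neg_eq_zero.1 hS.symm
    have h3 := hcz m h2
    rw [h3] at h
    push_cast at h
    linarith
  refine ⟨1 - m * c, ⟨by
    have := lt_of_le_of_ne hmpos hne
    linarith, by linarith⟩, by rw [hS]; exact Λ.neg_mem (Λ.zsmul_mem hc m), fun n hn => ?_⟩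
  rw [← AddCircle.coe_nsmul, AddCircle.coe_eq_zero_iff] at hn
  obtain ⟨k, hk⟩ := hn
  rw [zsmul_eq_mul, nsmul_eq_mul] at hk
  have h4 : ((k : ℝ) + n * m) * c = n := by linarith
  have h5 : (k + n * m : ℤ) • (c : S1) = 0 := by
    rw [← AddCircle.coe_zsmul, zsmul_eq_mul]
    push_cast
    rw [h4]
    have : ((n : ℝ) : S1) = n • ((1 : ℝ) : S1) := by
      rw [← AddCircle.coe_nsmul, nsmul_eq_mul, mul_one]
    rw [this, AddCircle.coe_period, nsmul_zero]
  have h6 := hcz _ h5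
  have h7 : ((k : ℝ) + n * m) = 0 := by exact_mod_cast h6
  rw [h7, zero_mul] at h4
  exact_mod_cast h4.symm

theorem not_stably.{u} (Λ : AddSubgroup S1) (a : S1) (ha : a ∈ Λ) (h0 : addOrderOf a = 0) :
    ¬ StablyRealizable.{u} (IETflip Λ) := by
  rintro ⟨Y, Φ, hΦ⟩
  obtain ⟨α, hα, hαΛ, hαo⟩ := exists_small ha h0 (ε := 1 / 3) (by norm_num) (by norm_num)
  have f1 : Fact (0 < α) := ⟨hα.1⟩
  have hα3 : α < 1 / 3 := hα.2
  obtain ⟨c, hc, hcΛ, hco⟩ := exists_small ha h0 (ε := α / 3) (by have := hα.1; positivity) (by linarith)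
  have f2 : Fact (0 < c) := ⟨hc.1⟩
  have hcα : c < α / 3 := hc.2
  have hαp : 0 < α := hα.1
  obtain ⟨β, hβ, hβΛ, hβo⟩ := exists_rot (by linarith) hαΛ hαo
  obtain ⟨β', hβ', hβ'Λ, hβ'o⟩ := exists_rot (by linarith) hcΛ hco
  refine core hΦ (α := α) (c := c) (by linarith) (by linarith) (by linarith) (by linarith)
    hαo hβo hβ'o ⟨_, flip_add hαΛ, rfl⟩ ?_ ?_ ⟨_, flip_Sf hαΛ, rfl⟩
  · exact ⟨_, flip_Rt (by linarith) _ hαΛ hβΛ hβ.1 hβ.2, rfl⟩
  · exact ⟨_, flip_Rt (by linarith) _ hcΛ hβ'Λ hβ'.1 hβ'.2, rfl⟩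

end Pool.Agent.R290.FL
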