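import Mathlib

/-!
Infinite orbits of permutations and permutations close to a translation.
-/

open Set Filter

namespace Pool.Agent.R290.FL

variable {X : Type*}

/-- The points with infinite orbit. -/
def Io (g : Equiv.Perm X) : Set X := {x | Function.Injective fun n : ℤ => (g ^ n) x}

lemma mem_Io {g : Equiv.Perm X} {x : X} : x ∈ Io g ↔ ∀ n : ℤ, (g ^ n) x = x → n = 0 := by
  constructor
  · intro h n hn
    have : (fun n : ℤ => (g ^ n) x) n = (fun n : ℤ => (g ^ n) x) 0 := by simpa using hn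
    exact h this
  · intro h m n hmn
    have h1 : (g ^ m) x = (g ^ n) x := hmn
    have h2 : (g ^ (m - n)) x = x := by
      rw [sub_eq_neg_add, zpow_add, Equiv.Perm.mul_apply, h1, ← Equiv.Perm.mul_apply, ← zpow_add]
      simp
    have := h _ h2
    omega

lemma Io_inv (g : Equiv.Perm X) : Io g⁻¹ = Io g := by
  ext x
  rw [mem_Io, mem_Io]
  constructor
  · intro h n hn
    have := h (-n) (by rw [inv_zpow, zpow_neg, inv_inv]; exact hn)
    omega
  · intro h n hn
    have := h (-n) (by rw [inv_zpow] at hn; rw [zpow_neg]; exact hn)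
    omega

lemma conj_Io {g h : Equiv.Perm X} {x : X} : x ∈ Io (h * g * h⁻¹) ↔ h⁻¹ x ∈ Io g := by
  rw [mem_Io, mem_Io]
  have key : ∀ n : ℤ, ((h * g * h⁻¹) ^ n) x = x ↔ (g ^ n) (h⁻¹ x) = h⁻¹ x := by
    intro n
    rw [conj_zpow, Equiv.Perm.mul_apply, Equiv.Perm.mul_apply]
    constructor
    · intro e
      rw [Equiv.Perm.eq_inv_iff_eq]; exact e
    · intro e
      rw [e]; simp
  constructor
  · intro H n hn
    exact H n ((key n).2 hn)
  · intro H n hn
    exact H n ((key n).1 hn)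

lemma comm_Io {g h : Equiv.Perm X} (hc : Commute g h) {x : X} (hx : x ∈ Io g) : h x ∈ Io g := by
  have e : h⁻¹ * g * h⁻¹⁻¹ = g := by
    rw [inv_inv, mul_assoc, hc.eq, ← mul_assoc, inv_mul_cancel, one_mul]
  have h1 := conj_Io (g := g) (h := h⁻¹) (x := x)
  rw [e, inv_inv] at h1
  exact h1.1 hx

lemma zpow_Io {g : Equiv.Perm X} {x : X} (hx : x ∈ Io g) (n : ℤ) : (g ^ n) x ∈ Io g :=
  comm_Io ((Commute.refl g).zpow_right n) hx

lemma pow_Io {g : Equiv.Perm X} {x : X} (hx : x ∈ Io g) (n : ℕ) : (g ^ n) x ∈ Io g :=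
  comm_Io ((Commute.refl g).pow_right n) hx

lemma Io_disj {g h : Equiv.Perm X} (hc : Commute g h) (hf : (Io g ∩ Io h).Finite) {x : X}
    (hx : x ∈ Io g) (hx' : x ∈ Io h) : False := by
  have h1 : ∀ n : ℤ, (g ^ n) x ∈ Io g ∩ Io h := fun n =>
    ⟨zpow_Io hx n, comm_Io (hc.symm.zpow_right n) hx'⟩
  have h2 : (Set.range fun n : ℤ => (g ^ n) x).Finite := hf.subset (by
    rintro _ ⟨n, rfl⟩; exact h1 n)
  exact (Set.infinite_range_of_injective (f := fun n : ℤ => (g ^ n) x) hx) h2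

lemma Io_inj_nat {g : Equiv.Perm X} {x : X} (hx : x ∈ Io g) :
    Function.Injective fun n : ℕ => (g ^ n) x := by
  intro m n hmn
  have h1 : (fun n : ℤ => (g ^ n) x) (m : ℤ) = (fun n : ℤ => (g ^ n) x) (n : ℤ) := by
    simpa using hmn
  have := hx h1
  exact_mod_cast this

/-- an injective sequence eventually leaves a finite set -/
lemma ev_notMem {Y : Type*} {f : ℕ → Y} (hf : Function.Injective f) {s : Set Y} (hs : s.Finite) :
    ∀ᶠ n : ℕ in atTop, f n ∉ s := by
  have h := (hs.preimage hf.injOn)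
  have h2 := Nat.cofinite_eq_atTop ▸ h.compl_mem_cofinite
  exact h2

variable {A : Type*} [AddCommGroup A]

/-- `g` is close to the translation by `b` of `A` (included in `X` by `ι`), extended by the
identity. -/
structure NR (ι : A → X) (b : A) (g : Equiv.Perm X) : Prop where
  near : {z : A | g (ι z) ≠ ι (z + b)}.Finite
  off : {x : X | x ∉ range ι ∧ g x ≠ x}.Finite

lemma NR.inv {ι : A → X} {b : A} {g : Equiv.Perm X} (h : NR ι b g) : NR ι (-b) g⁻¹ := by
  constructor
  · refine (h.near.preimage (f := fun z => z + -b) (add_left_injective _).injOn).subset fun z hz => ?_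
    intro h2
    apply hz
    have h3 : g (ι (z + -b)) = ι (z + -b + b) := h2
    rw [Equiv.Perm.inv_eq_iff_eq, h3]
    simp
  · refine h.off.subset fun x hx => ⟨hx.1, fun h2 => hx.2 ?_⟩
    rw [Equiv.Perm.inv_eq_iff_eq, h2]

lemma NR.out {ι : A → X} {b : A} {g : Equiv.Perm X} (h : NR ι b g) : (Io g \ range ι).Finite := by
  refine h.off.subset fun x hx => ⟨hx.2, fun h2 => ?_⟩
  have h3 := mem_Io.1 hx.1 1 (by simpa using h2)
  omega

/-- Bad points. -/
def Bd (ι : A → X) (b : A) (g : Equiv.Perm X) : Set X :=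
  (Io g \ range ι) ∪ ι '' {z : A | g (ι z) ≠ ι (z + b)}

lemma NR.Bd_fin {ι : A → X} {b : A} {g : Equiv.Perm X} (h : NR ι b g) : (Bd ι b g).Finite :=
  h.out.union (h.near.image _)

/-- walking along good points -/
lemma walk {ι : A → X} {b : A} {g : Equiv.Perm X} (z : A)
    (hg : ∀ n : ℕ, (g ^ n) (ι z) ∉ ι '' {z : A | g (ι z) ≠ ι (z + b)}) (n : ℕ) :
    (g ^ n) (ι z) = ι (z + n • b) := by
  induction n with
  | zero => simp
  | succ n ih =>
    have h1 := hg n
    rw [ih] at h1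
    have h2 : g (ι (z + n • b)) = ι (z + n • b + b) := by
      by_contra hne
      exact h1 ⟨_, hne, rfl⟩
    rw [pow_succ', Equiv.Perm.mul_apply, ih, h2, succ_nsmul, add_assoc]

lemma NR.fwd {ι : A → X} {b : A} {g : Equiv.Perm X} (h : NR ι b g) {x : X} (hx : x ∈ Io g) :
    ∃ y : A, ∀ᶠ n : ℕ in atTop, (g ^ n) x = ι (y + n • b) := by
  obtain ⟨M, hM⟩ := eventually_atTop.1 (ev_notMem (Io_inj_nat hx) h.Bd_fin)
  have h1 : (g ^ M) x ∈ range ι := by
    by_contra h2
    exact hM M le_rfl (Or.inl ⟨pow_Io hx M, h2⟩)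
  obtain ⟨z, hz⟩ := h1
  refine ⟨z - M • b, eventually_atTop.2 ⟨M, fun n hn => ?_⟩⟩
  obtain ⟨k, rfl⟩ := Nat.exists_eq_add_of_le hn
  have h2 : ∀ n : ℕ, (g ^ n) (ι z) ∉ ι '' {z : A | g (ι z) ≠ ι (z + b)} := by
    intro n hmem
    apply hM (M + n) (by omega)
    right
    show (g ^ (M + n)) x ∈ _
    rw [add_comm, pow_add, Equiv.Perm.mul_apply, ← hz]
    exact hmem
  rw [add_comm M k, pow_add, Equiv.Perm.mul_apply, ← hz, walk z h2 k, add_nsmul]
  congr 1
  abel

/-- The label of a point with infinite orbit. -/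
noncomputable def lab (ι : A → X) (b : A) (g : Equiv.Perm X) (x : X) : A :=
  open Classical in
  if h : ∃ y : A, ∀ᶠ n : ℕ in atTop, (g ^ n) x = ι (y + n • b) then h.choose else 0

lemma NR.lab_spec {ι : A → X} {b : A} {g : Equiv.Perm X} (h : NR ι b g) {x : X} (hx : x ∈ Io g) :
    ∀ᶠ n : ℕ in atTop, (g ^ n) x = ι (lab ι b g x + n • b) := by
  have h1 := h.fwd hx
  unfold lab
  rw [dif_pos h1]
  exact h1.choose_spec

lemma lab_uniq {ι : A → X} (hι : Function.Injective ι) {b : A} {g : Equiv.Perm X} {x : X} {y : A}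
    (hy : ∀ᶠ n : ℕ in atTop, (g ^ n) x = ι (y + n • b)) : lab ι b g x = y := by
  have h1 : ∃ y : A, ∀ᶠ n : ℕ in atTop, (g ^ n) x = ι (y + n • b) := ⟨y, hy⟩
  unfold lab
  rw [dif_pos h1]
  obtain ⟨n, hn1, hn2⟩ := (h1.choose_spec.and hy).exists
  have := hι (hn1.symm.trans hn2)
  exact add_right_cancel this

lemma NR.lab_inj {ι : A → X} {b : A} {g : Equiv.Perm X} (h : NR ι b g) {x x' : X}
    (hx : x ∈ Io g) (hx' : x' ∈ Io g) (he : lab ι b g x = lab ι b g x') : x = x' := by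
  obtain ⟨n, hn1, hn2⟩ := ((h.lab_spec hx).and (h.lab_spec hx')).exists
  rw [← he, ← hn1] at hn2
  exact (g ^ n).injective hn2.symm

lemma NR.inn {ι : A → X} (hι : Function.Injective ι) {b : A} (hb : ∀ n : ℕ, n • b = 0 → n = 0)
    {g : Equiv.Perm X} (h : NR ι b g) : {z : A | ι z ∉ Io g}.Finite := by
  have hfin : (⋃ w ∈ (ι '' {z : A | g (ι z) ≠ ι (z + b)} \ Io g), {x : X | ∃ k : ℕ, (g ^ k) x = w}).Finite := by
    refine Set.Finite.biUnion ((h.near.image _).subset sdiff_subset) fun w hw => ?_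
    have hw2 := hw.2
    rw [mem_Io] at hw2
    push Not at hw2
    obtain ⟨n, hn, hn0⟩ := hw2
    have hper : ∃ m : ℕ, m ≠ 0 ∧ (g ^ m) w = w := by
      rcases Int.natAbs_eq n with h1 | h1
      · refine ⟨n.natAbs, by omega, ?_⟩
        rw [h1, zpow_natCast] at hn
        exact hn
      · refine ⟨n.natAbs, by omega, ?_⟩
        rw [h1, zpow_neg, Equiv.Perm.inv_eq_iff_eq, zpow_natCast] at hn
        exact hn.symm
    obtain ⟨m, hm0, hm⟩ := hper
    refine (Set.finite_range fun i : Fin m => (g ^ (i : ℕ)) w).subset ?_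
    rintro x ⟨k, hk⟩
    have hmm : ∀ j : ℕ, (g ^ (m * j)) w = w := by
      intro j
      induction j with
      | zero => simp
      | succ j ih => rw [Nat.mul_succ, pow_add, Equiv.Perm.mul_apply, hm, ih]
    -- x = g ^ (m * k - k) w
    have hx : (g ^ (m * k - k)) w = x := by
      have hle : k ≤ m * k := Nat.le_mul_of_pos_left k (Nat.pos_of_ne_zero hm0)
      have h3 : (g ^ k) ((g ^ (m * k - k)) w) = (g ^ k) x := by
        rw [← Equiv.Perm.mul_apply, ← pow_add, Nat.add_sub_cancel' hle, hmm, hk]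
      exact (g ^ k).injective h3
    have hdm := Nat.div_add_mod (m * k - k) m
    refine ⟨⟨(m * k - k) % m, Nat.mod_lt _ (Nat.pos_of_ne_zero hm0)⟩, ?_⟩
    show (g ^ ((m * k - k) % m)) w = x
    rw [← hx]
    conv_rhs => rw [← hdm, add_comm, pow_add, Equiv.Perm.mul_apply, hmm]
  refine (hfin.preimage (f := ι) hι.injOn).subset fun z hz => ?_
  have hz' : ι z ∉ Io g := hz
  simp only [Set.mem_preimage, Set.mem_iUnion]
  by_contra hcon
  push Not at hcon
  have hg : ∀ n : ℕ, (g ^ n) (ι z) ∉ ι '' {z : A | g (ι z) ≠ ι (z + b)} := by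
    intro n hmem
    refine hcon ((g ^ n) (ι z)) ⟨hmem, fun h2 => hz' ?_⟩ ⟨n, rfl⟩
    have := zpow_Io h2 (-(n : ℤ))
    simpa using this
  apply hz'
  rw [mem_Io]
  intro n hn
  have hnat : ∀ m : ℕ, (g ^ m) (ι z) = ι z → m = 0 := by
    intro m hm
    rw [walk z hg m] at hm
    have := hι hm
    exact hb m (by simpa using this)
  rcases Int.natAbs_eq n with h1 | h1
  · have := hnat n.natAbs (by rw [h1, zpow_natCast] at hn; exact hn)
    omega
  · have := hnat n.natAbs (by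
      rw [h1, zpow_neg, Equiv.Perm.inv_eq_iff_eq, zpow_natCast] at hn
      exact hn.symm)
    omega

lemma NR.lab_surj {ι : A → X} (hι : Function.Injective ι) {b : A} (hb : ∀ n : ℕ, n • b = 0 → n = 0)
    {g : Equiv.Perm X} (h : NR ι b g) (z : A) : ∃ x ∈ Io g, lab ι b g x = z := by
  have hinj : Function.Injective fun n : ℕ => z + n • b := by
    intro m n hmn
    have h1 : m • b = n • b := add_left_cancel hmn
    rcases le_total m n with h2 | h2
    · obtain ⟨k, rfl⟩ := Nat.exists_eq_add_of_le h2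
      rw [add_nsmul, left_eq_add] at h1
      have := hb k h1
      omega
    · obtain ⟨k, rfl⟩ := Nat.exists_eq_add_of_le h2
      rw [add_nsmul, add_eq_left] at h1
      have := hb k h1
      omega
  obtain ⟨M, hM⟩ := eventually_atTop.1 (ev_notMem hinj ((h.inn hι hb).union h.near))
  have h1 : ∀ k : ℕ, ι (z + (M + k) • b) ∈ Io g ∧ g (ι (z + (M + k) • b)) = ι (z + (M + k) • b + b) := by
    intro k
    have := hM (M + k) (by omega)
    simp only [Set.mem_union, Set.mem_ofPred_eq, not_or, not_not] at this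
    exact this
  have h2 : ∀ k : ℕ, (g ^ k) (ι (z + M • b)) = ι (z + (M + k) • b) := by
    intro k
    induction k with
    | zero => simp
    | succ k ih =>
      rw [pow_succ', Equiv.Perm.mul_apply, ih, (h1 k).2]
      congr 1
      rw [show M + (k + 1) = (M + k) + 1 by ring, succ_nsmul _ (M + k)]
      abel
  have h3 : (g ^ M) ((g ^ (-(M : ℤ))) (ι (z + M • b))) = ι (z + M • b) := by simp
  refine ⟨(g ^ (-(M : ℤ))) (ι (z + M • b)), zpow_Io (by simpa using (h1 0).1) _, lab_uniq hι ?_⟩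
  refine eventually_atTop.2 ⟨M, fun n hn => ?_⟩
  obtain ⟨k, rfl⟩ := Nat.exists_eq_add_of_le hn
  rw [add_comm M k, pow_add, Equiv.Perm.mul_apply, h3, h2 k, add_comm k M]

lemma NR.lab_pow {ι : A → X} (hι : Function.Injective ι) {b : A} {g : Equiv.Perm X}
    (h : NR ι b g) {x : X} (hx : x ∈ Io g) (m : ℕ) : lab ι b g ((g ^ m) x) = lab ι b g x + m • b := by
  apply lab_uniq hι
  obtain ⟨M, hM⟩ := eventually_atTop.1 (h.lab_spec hx)
  refine eventually_atTop.2 ⟨M, fun n hn => ?_⟩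
  rw [← Equiv.Perm.mul_apply, ← pow_add, hM (n + m) (by omega), add_nsmul]
  congr 1
  abel

lemma NR.lab_inv_pow {ι : A → X} (hι : Function.Injective ι) {b : A} {g : Equiv.Perm X}
    (h : NR ι b g) {x : X} (hx : x ∈ Io g) (m : ℕ) :
    lab ι (-b) g⁻¹ ((g ^ m) x) = lab ι (-b) g⁻¹ x + m • b := by
  apply lab_uniq hι
  obtain ⟨M, hM⟩ := eventually_atTop.1 (h.inv.lab_spec (x := x) (by rw [Io_inv]; exact hx))
  refine eventually_atTop.2 ⟨M + m, fun n hn => ?_⟩
  obtain ⟨k, rfl⟩ := Nat.exists_eq_add_of_le (show m ≤ n by omega)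
  have h1 : (g⁻¹ ^ (m + k)) ((g ^ m) x) = (g⁻¹ ^ k) x := by
    rw [add_comm m k, pow_add, Equiv.Perm.mul_apply]
    congr 1
    simp
  rw [h1, hM k (by omega), add_nsmul]
  congr 1
  simp only [smul_neg]
  abel

/-- if forward and backward labels agree then the label is almost everywhere the identity -/
lemma NR.lab_near {ι : A → X} (hι : Function.Injective ι) {b : A} {g : Equiv.Perm X}
    (h : NR ι b g) (hal : ∀ x ∈ Io g, lab ι b g x = lab ι (-b) g⁻¹ x) :
    {x : X | x ∈ Io g ∧ ι (lab ι b g x) ≠ x}.Finite := by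
  set B1 := Bd ι b g
  set B2 := Bd ι (-b) g⁻¹
  have hB1 : B1.Finite := h.Bd_fin
  have hB2 : B2.Finite := h.inv.Bd_fin
  -- a point whose forward orbit is good
  have fw : ∀ {b : A} {g : Equiv.Perm X}, NR ι b g → ∀ x ∈ Io g, (∀ n : ℕ, (g ^ n) x ∉ Bd ι b g) →
      ι (lab ι b g x) = x := by
    intro b g h x hx hgood
    have h1 : x ∈ range ι := by
      by_contra h2
      exact hgood 0 (Or.inl ⟨hx, h2⟩)
    obtain ⟨z, rfl⟩ := h1
    congr 1
    apply lab_uniq hι
    refine Eventually.of_forall fun n => walk z (fun n hmem => hgood n (Or.inr hmem)) n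
  have hfin : (⋃ w ∈ B1, ⋃ w' ∈ B2, {x : X | x ∈ Io g ∧ ∃ m n : ℕ, (g ^ m) x = w ∧ (g⁻¹ ^ n) x = w'}).Finite := by
    refine hB1.biUnion fun w _ => hB2.biUnion fun w' _ => ?_
    by_cases hne : {x : X | x ∈ Io g ∧ ∃ m n : ℕ, (g ^ m) x = w ∧ (g⁻¹ ^ n) x = w'}.Nonempty
    · obtain ⟨x0, hx0, m0, n0, hm0, hn0⟩ := hne
      have hw' : w' ∈ Io g := by
        rw [← hn0, ← Io_inv]
        exact pow_Io (by rw [Io_inv]; exact hx0) _
      refine (Set.finite_range fun i : Fin (m0 + n0 + 1) => (g ^ (i : ℕ)) w').subset ?_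
      rintro x ⟨hx, m, n, hm, hn⟩
      have e0 : (g ^ (m0 + n0)) w' = w := by
        rw [← hn0, ← hm0, pow_add, Equiv.Perm.mul_apply]
        simp
      have e1 : (g ^ (m + n)) w' = w := by
        rw [← hn, ← hm, pow_add, Equiv.Perm.mul_apply]
        simp
      have e2 := Io_inj_nat hw' (e1.trans e0.symm)
      refine ⟨⟨n, by omega⟩, ?_⟩
      show (g ^ n) w' = x
      rw [← hn]; simp
    · rw [Set.not_nonempty_iff_eq_empty.1 hne]; exact Set.finite_empty
  refine hfin.subset ?_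
  rintro x ⟨hx, hne⟩
  by_contra hcon
  apply hne
  by_cases h1 : ∀ n : ℕ, (g ^ n) x ∉ B1
  · exact fw h x hx h1
  · push Not at h1
    obtain ⟨m, hm⟩ := h1
    rw [hal x hx]
    refine fw h.inv x (by rw [Io_inv]; exact hx) fun n hn => hcon ?_
    simp only [Set.mem_iUnion]
    exact ⟨_, hm, _, hn, hx, m, n, rfl, rfl⟩

end Pool.Agent.R290.FL
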