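import Pool.Agent.R290.FL.Align
import Pool.Agent.R291.PCDefs

/-!
Rotations of an arc of the circle.
-/

open Set Filter Topology Metric

namespace Pool.Agent.R290.FL

open Pool.Agent.R291

variable {L : ℝ} [hL0 : Fact (0 < L)]

/-- The circle of length `L` placed on the arc `[0, L)`. -/
noncomputable def th (L : ℝ) [Fact (0 < L)] (z : AddCircle L) : S1 :=
  ((AddCircle.equivIco L 0 z : ℝ) : S1)

lemma th_coe {t : ℝ} (ht : t ∈ Ico 0 L) : th L (t : AddCircle L) = (t : S1) := by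
  unfold th
  rw [AddCircle.equivIco_coe_eq (show t ∈ Ico 0 (0 + L) by rw [zero_add]; exact ht)]

lemma exists_th (z : AddCircle L) : ∃ t ∈ Ico 0 L, (t : AddCircle L) = z := by
  have h2 := (AddCircle.equivIco L 0 z).2
  exact ⟨(AddCircle.equivIco L 0 z : ℝ), ⟨h2.1, h2.2.trans_eq (zero_add L)⟩,
    (AddCircle.equivIco L 0).symm_apply_apply z⟩

lemma coe_inj_Ico {s t : ℝ} (hs : s ∈ Ico (0:ℝ) 1) (ht : t ∈ Ico (0:ℝ) 1) (h : (s : S1) = (t : S1)) :
    s = t :=
  (AddCircle.coe_eq_coe_iff_of_mem_Ico (p := (1:ℝ)) (a := 0) (by rw [zero_add]; exact hs)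
    (by rw [zero_add]; exact ht)).1 h

lemma th_inj (hL : L ≤ 1) : Function.Injective (th L) := by
  intro z w h
  obtain ⟨s, hs, rfl⟩ := exists_th z
  obtain ⟨t, ht, rfl⟩ := exists_th w
  rw [th_coe hs, th_coe ht] at h
  rw [coe_inj_Ico ⟨hs.1, hs.2.trans_le hL⟩ ⟨ht.1, ht.2.trans_le hL⟩ h]

lemma mem_range_th {x : S1} : x ∈ range (th L) ↔ ∃ t ∈ Ico 0 L, (t : S1) = x := by
  constructor
  · rintro ⟨z, rfl⟩
    obtain ⟨s, hs, rfl⟩ := exists_th z
    exact ⟨s, hs, (th_coe hs).symm⟩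
  · rintro ⟨t, ht, rfl⟩
    exact ⟨_, th_coe ht⟩

lemma norm_coe_le (s : ℝ) : ‖(s : AddCircle L)‖ ≤ |s| := by
  have := QuotientAddGroup.norm_mk_le_norm (S := AddSubgroup.zmultiples L) (m := s)
  rw [Real.norm_eq_abs] at this
  exact this

/-- The rotation by `b` of the arc `[0, L)`. -/
noncomputable def Rt (hi : Function.Injective (th L)) (b : AddCircle L) : Equiv.Perm S1 :=
  open Classical in
  Equiv.Perm.extendDomain (Equiv.addRight b) (p := fun x => x ∈ range (th L)) (Equiv.ofInjective (th L) hi)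

lemma Rt_th (hi : Function.Injective (th L)) (b z : AddCircle L) :
    Rt hi b (th L z) = th L (z + b) := by
  classical
  have := Equiv.Perm.extendDomain_apply_image (Equiv.addRight b) (p := fun x => x ∈ range (th L))
    (Equiv.ofInjective (th L) hi) z
  simpa [Rt] using this

lemma Rt_off (hi : Function.Injective (th L)) (b : AddCircle L) {x : S1} (hx : x ∉ range (th L)) :
    Rt hi b x = x := by
  classical
  exact Equiv.Perm.extendDomain_apply_not_subtype _ _ hx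

lemma Rt_pow (hi : Function.Injective (th L)) (b z : AddCircle L) (n : ℕ) :
    ((Rt hi b) ^ n) (th L z) = th L (z + n • b) := by
  induction n with
  | zero => simp
  | succ n ih =>
    rw [pow_succ', Equiv.Perm.mul_apply, ih, Rt_th, succ_nsmul, add_assoc]

/-- two arcs shifted away have disjoint rotations -/
lemma Rt_disj {c : ℝ} [Fact (0 < c)] (hi : Function.Injective (th L)) (hi' : Function.Injective (th c))
    (hcL : c ≤ L) (hL1 : L ≤ 1) (b : AddCircle L) (b' : AddCircle c) {n : ℕ} (hn : c ≤ ‖n • b‖) :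
    Equiv.Perm.Disjoint (Rt hi' b') ((Rt hi b) ^ n * Rt hi' b' * ((Rt hi b) ^ n)⁻¹) := by
  intro x
  by_contra hcon
  push Not at hcon
  obtain ⟨h1, h2⟩ := hcon
  have h3 : x ∈ range (th c) := by
    by_contra h; exact h1 (Rt_off _ _ h)
  have h4 : (((Rt hi b) ^ n)⁻¹) x ∈ range (th c) := by
    by_contra h
    apply h2
    rw [Equiv.Perm.mul_apply, Equiv.Perm.mul_apply, Rt_off _ _ h]
    simp
  obtain ⟨s, hs, hs'⟩ := mem_range_th.1 h3
  obtain ⟨t, ht, ht'⟩ := mem_range_th.1 h4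
  have hsL : s ∈ Ico 0 L := ⟨hs.1, hs.2.trans_le hcL⟩
  have htL : t ∈ Ico 0 L := ⟨ht.1, ht.2.trans_le hcL⟩
  have h5 : ((Rt hi b) ^ n) (t : S1) = x := by
    rw [ht']; simp
  rw [← th_coe htL, Rt_pow, ← hs', ← th_coe hsL] at h5
  have h6 := th_inj hL1 h5
  have h7 : n • b = ((s - t : ℝ) : AddCircle L) := by
    rw [AddCircle.coe_sub, ← h6]; abel
  rw [h7] at hn
  have h8 : ‖((s - t : ℝ) : AddCircle L)‖ ≤ |s - t| := norm_coe_le _
  have h9 : |s - t| < c := by
    rw [abs_lt]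
    constructor <;> linarith [hs.1, hs.2, ht.1, ht.2]
  linarith

/-- the reflection of the circle exchanging the ends of the arc -/
noncomputable def Sf (a : S1) : Equiv.Perm S1 := (Equiv.neg S1).trans (Equiv.addRight a)

lemma Sf_apply (a x : S1) : Sf a x = -x + a := rfl

lemma Sf_th (hL1 : L < 1) {w : AddCircle L} (hw : w ≠ 0) : Sf (L : S1) (th L w) = th L (-w) := by
  obtain ⟨t, ht, rfl⟩ := exists_th w
  have ht0 : 0 < t := by
    rcases ht.1.lt_or_eq with h | h
    · exact h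
    · exfalso; apply hw; rw [← h]; simp
  have e : -(t : AddCircle L) = ((L - t : ℝ) : AddCircle L) := by
    rw [AddCircle.coe_sub, AddCircle.coe_period, zero_sub]
  rw [e, th_coe ht, th_coe ⟨by linarith [ht.2], by linarith⟩, Sf_apply, AddCircle.coe_sub]
  abel

lemma Sf_rel (hL1 : L < 1) (hi : Function.Injective (th L)) (b : AddCircle L) :
    {x : S1 | (Sf (L : S1) * Rt hi b * Sf (L : S1) * Rt hi b) x ≠ x}.Finite := by
  have hSS : ∀ x : S1, Sf (L : S1) (Sf (L : S1) x) = x := by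
    intro x; rw [Sf_apply, Sf_apply]; abel
  refine (Set.toFinite {th L 0, th L (-b), (L : S1)}).subset fun x hx => ?_
  by_contra hcon
  simp only [Set.mem_insert_iff, Set.mem_singleton_iff, not_or] at hcon
  obtain ⟨c1, c2, c3⟩ := hcon
  apply hx
  rw [Equiv.Perm.mul_apply, Equiv.Perm.mul_apply, Equiv.Perm.mul_apply]
  by_cases h : x ∈ range (th L)
  · obtain ⟨z, rfl⟩ := h
    have hz : z ≠ 0 := fun h => c1 (by rw [h])
    have hz' : z + b ≠ 0 := fun h => c2 (by rw [eq_neg_of_add_eq_zero_left h])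
    rw [Rt_th, Sf_th hL1 hz', Rt_th, neg_add_rev, add_comm (-b), neg_add_cancel_right,
      Sf_th hL1 (neg_ne_zero.2 hz), neg_neg]
  · rw [Rt_off _ _ h, Rt_off, hSS]
    rintro ⟨w, hw⟩
    by_cases hw0 : w = 0
    · have h0 : th L (0 : AddCircle L) = 0 := by
        have := th_coe (L := L) (t := 0) ⟨le_rfl, hL0.out⟩
        simpa using this
      rw [hw0, h0, Sf_apply] at hw
      apply c3
      exact eq_of_sub_eq_zero (by rw [sub_eq_zero]; exact (neg_add_eq_zero.1 hw.symm))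
    · apply h
      rw [← hSS x, ← hw, Sf_th hL1 hw0]
      exact ⟨_, rfl⟩

lemma Sf_conj (a b : S1) : Sf a * Equiv.addRight b = (Equiv.addRight b)⁻¹ * Sf a := by
  ext x
  rw [Equiv.Perm.mul_apply, Equiv.Perm.mul_apply, Equiv.Perm.eq_inv_iff_eq]
  simp only [Sf_apply, Equiv.coe_addRight]
  abel

lemma ball_rep {c : ℝ} {z : AddCircle L} (hz : z ∈ closedBall ((c / 2 : ℝ) : AddCircle L) (c / 2)) :
    ∃ t ∈ Icc 0 c, (t : AddCircle L) = z := by
  obtain ⟨s, hs, hs1, hs2⟩ := exists_rep (z - ((c / 2 : ℝ) : AddCircle L))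
  rw [mem_closedBall, dist_eq_norm, hs2, abs_le] at hz
  refine ⟨c / 2 + s, ⟨by linarith, by linarith⟩, ?_⟩
  rw [AddCircle.coe_add, hs]; abel

lemma oball_rep {c : ℝ} {z : AddCircle L} (hz : z ∈ ball ((c / 2 : ℝ) : AddCircle L) (c / 2)) :
    ∃ t ∈ Ioo 0 c, (t : AddCircle L) = z := by
  obtain ⟨s, hs, hs1, hs2⟩ := exists_rep (z - ((c / 2 : ℝ) : AddCircle L))
  rw [mem_ball, dist_eq_norm, hs2, abs_lt] at hz
  refine ⟨c / 2 + s, ⟨by linarith, by linarith⟩, ?_⟩
  rw [AddCircle.coe_add, hs]; abel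

end Pool.Agent.R290.FL
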